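import Mathlib
import Pool.Agent.H442R2.EHI.PntErr

set_option autoImplicit false

/-! Uniform forms of the prime number theorem with error term. -/

namespace Pool.Agent.Q258.PntTools

open Finset Filter Topology
open Pool.Agent.H442R2.EHI

/-- the number of primes up to `y`, as a real number -/
theorem pc_eq (y : ℕ) :
    (((Icc 1 y).filter (fun p : ℕ => p.Prime)).card : ℝ) = (Nat.primeCounting y : ℝ) := by
  rw [Nat.primeCounting, Nat.primeCounting', Nat.count_eq_card_filter_range]
  congr 2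
  ext p
  simp only [mem_filter, mem_range, mem_Icc]
  constructor
  · rintro ⟨⟨h1, h2⟩, h3⟩; exact ⟨by omega, h3⟩
  · rintro ⟨h1, h2⟩; exact ⟨⟨h2.one_lt.le, by omega⟩, h2⟩

theorem pi_err (U : ℕ) : ∃ C : ℝ, 0 < C ∧ ∀ y : ℕ, 2 ≤ y →
    |(Nat.primeCounting y : ℝ) - lis y| ≤ C * (y / Real.log y ^ U) := by
  obtain ⟨C, hC⟩ := pnt_err U
  refine ⟨|C| + 1, by positivity, fun y hy => ?_⟩
  have h := hC y hy
  rw [pc_eq] at h
  have hy1 : (1 : ℝ) < y := by exact_mod_cast (by omega : 1 < y)
  have hl : 0 < Real.log y := Real.log_pos hy1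
  have h0 : 0 ≤ (y : ℝ) / Real.log y ^ U := by positivity
  rw [mul_div_assoc] at h
  nlinarith [le_abs_self C]

/-- uniform error for all `y ≤ Y` -/
theorem pi_err_unif (U : ℕ) : ∃ C : ℝ, 0 < C ∧ ∀ᶠ Y : ℕ in atTop, ∀ y : ℕ, 2 ≤ y → y ≤ Y →
    |(Nat.primeCounting y : ℝ) - lis y| ≤ C * (Y / Real.log Y ^ U) := by
  obtain ⟨C, hC, h⟩ := pi_err U
  have hlog2 : 0 < Real.log 2 := Real.log_pos (by norm_num)
  refine ⟨C * (2 ^ U + 1 / Real.log 2 ^ U), by positivity, ?_⟩
  -- `log Y ^ U ≤ √Y` eventually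
  have hev : ∀ᶠ Y : ℕ in atTop, Real.log Y ^ U ≤ (Y : ℝ) ^ (1 / 2 : ℝ) := by
    have h2 := (isLittleO_log_rpow_rpow_atTop (U : ℝ) (by norm_num : (0 : ℝ) < 1 / 2)).bound
      (show (0 : ℝ) < 1 by norm_num)
    have h3 : ∀ᶠ y : ℝ in atTop, Real.log y ^ U ≤ y ^ (1 / 2 : ℝ) := by
      filter_upwards [h2, eventually_ge_atTop 1] with y hy hy1
      have hl : 0 ≤ Real.log y := Real.log_nonneg hy1
      rw [Real.rpow_natCast, Real.norm_of_nonneg (by positivity),
        Real.norm_of_nonneg (Real.rpow_nonneg (by linarith) _), one_mul] at hy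
      exact hy
    exact tendsto_natCast_atTop_atTop.eventually h3
  filter_upwards [hev, eventually_ge_atTop 2] with Y hY hY2 y hy hyY
  have hy1 : (1 : ℝ) < y := by exact_mod_cast (by omega : 1 < y)
  have hY1 : (1 : ℝ) < Y := by exact_mod_cast (by omega : 1 < Y)
  have hY0 : (0 : ℝ) < Y := by linarith
  have hl : 0 < Real.log y := Real.log_pos hy1
  have hL : 0 < Real.log Y := Real.log_pos hY1
  have hl2 : Real.log 2 ≤ Real.log y := Real.log_le_log (by norm_num) (by exact_mod_cast hy)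
  refine (h y hy).trans ?_
  rw [mul_assoc]
  apply mul_le_mul_of_nonneg_left _ hC.le
  have hYU : 0 ≤ (Y : ℝ) / Real.log Y ^ U := by positivity
  rcases le_or_gt ((Y : ℝ) ^ (1 / 2 : ℝ)) y with h1 | h1
  · -- large `y`
    have h3 : Real.log Y / 2 ≤ Real.log y := by
      have h4 := Real.log_le_log (by positivity) h1
      rw [Real.log_rpow hY0] at h4
      linarith
    have h5 : (y : ℝ) / Real.log y ^ U ≤ Y / (Real.log Y / 2) ^ U := by
      apply div_le_div₀ hY0.le (by exact_mod_cast hyY) (by positivity)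
      exact pow_le_pow_left₀ (by positivity) h3 U
    have h6 : (Y : ℝ) / (Real.log Y / 2) ^ U = 2 ^ U * (Y / Real.log Y ^ U) := by
      rw [div_pow]; field_simp
    rw [h6] at h5
    have h7 : 0 ≤ 1 / Real.log 2 ^ U * (Y / Real.log Y ^ U) := by positivity
    linarith
  · have h5 : (y : ℝ) / Real.log y ^ U ≤ (Y : ℝ) ^ (1 / 2 : ℝ) / Real.log 2 ^ U := by
      apply div_le_div₀ (by positivity) h1.le (by positivity)
      exact pow_le_pow_left₀ hlog2.le hl2 U
    have h6 : (Y : ℝ) ^ (1 / 2 : ℝ) ≤ Y / Real.log Y ^ U := by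
      rw [le_div_iff₀ (by positivity)]
      calc (Y : ℝ) ^ (1 / 2 : ℝ) * Real.log Y ^ U ≤ (Y : ℝ) ^ (1 / 2 : ℝ) * (Y : ℝ) ^ (1 / 2 : ℝ) := by
            gcongr
        _ = Y := by
            rw [← Real.rpow_add hY0]; norm_num
    have h7 : (Y : ℝ) ^ (1 / 2 : ℝ) / Real.log 2 ^ U ≤ 1 / Real.log 2 ^ U * (Y / Real.log Y ^ U) := by
      rw [div_mul_eq_mul_div, one_mul]
      gcongr
    have h8 : 0 ≤ 2 ^ U * ((Y : ℝ) / Real.log Y ^ U) := by positivity
    linarith

/-- `lis` is at least `(y - 1) / log y` -/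
theorem lis_ge (y : ℕ) (hy : 2 ≤ y) : ((y : ℝ) - 1) / Real.log y ≤ lis y := by
  unfold lis
  have h1 : ∀ n ∈ Icc 2 y, 1 / Real.log y ≤ 1 / Real.log n := by
    intro n hn
    rw [mem_Icc] at hn
    have hn1 : (1 : ℝ) < n := by exact_mod_cast (by omega : 1 < n)
    apply one_div_le_one_div_of_le (Real.log_pos hn1)
    exact Real.log_le_log (by linarith) (by exact_mod_cast hn.2)
  have h2 := Finset.card_nsmul_le_sum _ _ _ h1
  rw [Nat.card_Icc, nsmul_eq_mul] at h2
  have h3 : ((y + 1 - 2 : ℕ) : ℝ) = (y : ℝ) - 1 := by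
    rw [Nat.cast_sub (by omega)]; push_cast; ring
  rw [h3] at h2
  rw [div_eq_mul_one_div]
  exact h2

/-- lower bound for `π` -/
theorem pi_ge : ∀ᶠ y : ℕ in atTop, (y : ℝ) / (2 * Real.log y) ≤ Nat.primeCounting y := by
  obtain ⟨C, hC, h⟩ := pi_err 2
  have hlog : Tendsto (fun y : ℕ => Real.log y) atTop atTop :=
    Real.tendsto_log_atTop.comp tendsto_natCast_atTop_atTop
  filter_upwards [hlog.eventually_ge_atTop (4 * C + 4), eventually_ge_atTop 8] with y h1 hy
  have hy8 : (8 : ℝ) ≤ y := by exact_mod_cast hy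
  have hl : 0 < Real.log y := by linarith
  have h2 := h y (by omega)
  have h3 := lis_ge y (by omega)
  have h4 : C * ((y : ℝ) / Real.log y ^ 2) ≤ (y / 4) / Real.log y := by
    have e : C * ((y : ℝ) / Real.log y ^ 2) = (C * y / Real.log y) / Real.log y := by
      field_simp
    rw [e]
    apply div_le_div_of_nonneg_right _ hl.le
    rw [div_le_iff₀ hl]
    nlinarith
  rw [abs_le] at h2
  have h5 : (y : ℝ) / (2 * Real.log y) = (y / 2) / Real.log y := by field_simp
  rw [h5]
  have h6 : ((y : ℝ) / 2) / Real.log y + (y / 4) / Real.log y ≤ ((y : ℝ) - 1) / Real.log y := by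
    rw [← add_div]
    gcongr
    linarith
  linarith [h2.1]

/-- upper bound for the `n`-th prime -/
theorem nth_le : ∀ᶠ n : ℕ in atTop, (Nat.nth Nat.Prime (n - 1) : ℝ) ≤ 4 * n * Real.log n := by
  -- at `y = ⌊4 n log n⌋` there are at least `n` primes up to `y`
  have hlog : Tendsto (fun y : ℕ => Real.log y) atTop atTop :=
    Real.tendsto_log_atTop.comp tendsto_natCast_atTop_atTop
  have hy : Tendsto (fun n : ℕ => ⌊4 * (n : ℝ) * Real.log n⌋₊) atTop atTop := by
    apply tendsto_nat_floor_atTop.comp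
    apply Tendsto.atTop_mul_atTop₀ _ hlog
    exact tendsto_natCast_atTop_atTop.const_mul_atTop (by norm_num)
  have hll : ∀ᶠ n : ℕ in atTop, Real.log (Real.log n) ≤ Real.log n / 4 := by
    have h1 := (Real.isLittleO_log_id_atTop).bound (show (0 : ℝ) < 1 / 4 by norm_num)
    have h2 := hlog.eventually h1
    filter_upwards [h2, hlog.eventually_ge_atTop 1] with n h3 h4
    simp only [id_eq] at h3
    rw [Real.norm_of_nonneg (Real.log_nonneg h4), Real.norm_of_nonneg (by linarith)] at h3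
    linarith
  filter_upwards [hy.eventually pi_ge, hll, hlog.eventually_ge_atTop 8, eventually_ge_atTop 2]
    with n h1 h2 h3 hn
  have hn0 : (2 : ℝ) ≤ n := by exact_mod_cast hn
  have hL : 0 < Real.log n := by linarith
  set y := ⌊4 * (n : ℝ) * Real.log n⌋₊ with hyd
  have hy1 : (y : ℝ) ≤ 4 * n * Real.log n := Nat.floor_le (by positivity)
  have hy2 : 4 * (n : ℝ) * Real.log n < y + 1 := Nat.lt_floor_add_one _
  have hyn : (n : ℝ) ≤ y := by nlinarith
  have hypos : (0 : ℝ) < y := by linarith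
  have hly : 0 < Real.log y := Real.log_pos (by linarith)
  have h4 : Real.log y ≤ 3 / 2 * Real.log n := by
    calc Real.log y ≤ Real.log (4 * n * Real.log n) := Real.log_le_log hypos hy1
      _ = Real.log 4 + Real.log n + Real.log (Real.log n) := by
          rw [Real.log_mul (by positivity) hL.ne', Real.log_mul (by norm_num) (by positivity)]
      _ ≤ 2 + Real.log n + Real.log n / 4 := by
          have : Real.log 4 ≤ 2 := by
            have h5 : Real.log 4 = 2 * Real.log 2 := by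
              rw [show (4 : ℝ) = 2 ^ 2 by norm_num, Real.log_pow]; norm_num
            rw [h5]
            have := Real.log_two_lt_d9
            linarith
          linarith
      _ ≤ 3 / 2 * Real.log n := by linarith
  have h5 : (n : ℝ) ≤ Nat.primeCounting y := by
    refine le_trans ?_ h1
    rw [le_div_iff₀ (by positivity)]
    nlinarith
  have h6 : n ≤ Nat.primeCounting y := by exact_mod_cast h5
  have h7 : Nat.nth Nat.Prime (n - 1) ≤ y := by
    have h8 : n - 1 < Nat.count Nat.Prime (y + 1) := by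
      have : Nat.primeCounting y = Nat.count Nat.Prime (y + 1) := rfl
      omega
    have := Nat.nth_lt_of_lt_count h8
    omega
  calc (Nat.nth Nat.Prime (n - 1) : ℝ) ≤ y := by exact_mod_cast h7
    _ ≤ _ := hy1

end Pool.Agent.Q258.PntTools
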