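import Mathlib

/-!
# The Erdős–Heilbronn theorem (Dias da Silva–Hamidoune) for two summands from the same set

For a prime `p` and a set `A` in `ZMod p` with `2|A| - 3 ≤ p`, the set of sums of two distinct
elements of `A` has at least `2|A| - 3` elements.  Proof by the polynomial method
(Alon–Nathanson–Ruzsa), using the Lagrange interpolation functional.
-/

namespace Pool.Agent.Q258.EH

open Finset

variable {F : Type*} [Field F] [DecidableEq F]

/-- The leading coefficient functional of Lagrange interpolation on `A`. -/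
noncomputable def L (A : Finset F) (f : F → F) : F :=
  ∑ a ∈ A, f a / ∏ j ∈ A.erase a, (a - j)

lemma L_pow (A : Finset F) (i : ℕ) (hi : i < A.card) :
    L A (fun a => a ^ i) = if i = A.card - 1 then 1 else 0 := by
  have h := Lagrange.coeff_eq_sum (s := A) (v := (id : F → F)) (Set.injOn_id _)
    (P := (Polynomial.X : Polynomial F) ^ i) (by
      rw [Polynomial.degree_X_pow]; exact_mod_cast hi)
  simp only [Polynomial.coeff_X_pow, Polynomial.eval_pow, Polynomial.eval_X, id] at h
  rw [L, ← h]
  by_cases h' : i = A.card - 1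
  · simp [h']
  · simp [h', Ne.symm h']

lemma L_mul_const (A : Finset F) (f : F → F) (c : F) :
    L A (fun a => f a * c) = L A f * c := by
  unfold L
  rw [Finset.sum_mul]
  refine Finset.sum_congr rfl fun a _ => ?_
  ring

lemma L_const_mul (A : Finset F) (f : F → F) (c : F) :
    L A (fun a => c * f a) = c * L A f := by
  unfold L
  rw [Finset.mul_sum]
  refine Finset.sum_congr rfl fun a _ => ?_
  ring

lemma L_sum {ι : Type*} (A : Finset F) (s : Finset ι) (f : ι → F → F) :
    L A (fun a => ∑ i ∈ s, f i a) = ∑ i ∈ s, L A (f i) := by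
  unfold L
  rw [Finset.sum_comm]
  refine Finset.sum_congr rfl fun a _ => ?_
  rw [Finset.sum_div]

lemma L_sub (A : Finset F) (f g : F → F) :
    L A (fun a => f a - g a) = L A f - L A g := by
  unfold L
  rw [← Finset.sum_sub_distrib]
  refine Finset.sum_congr rfl fun a _ => ?_
  ring

/-- The product functional. -/
noncomputable def L2 (A B : Finset F) (g : F → F → F) : F :=
  L A (fun a => L B (fun b => g a b))

lemma L2_zero_of (A B : Finset F) (g : F → F → F)
    (h : ∀ a ∈ A, ∀ b ∈ B, g a b = 0) : L2 A B g = 0 := by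
  unfold L2 L
  refine Finset.sum_eq_zero fun a ha => ?_
  have : ∑ b ∈ B, g a b / ∏ j ∈ B.erase b, (b - j) = 0 :=
    Finset.sum_eq_zero fun b hb => by rw [h a ha b hb]; simp
  show (∑ b ∈ B, g a b / ∏ j ∈ B.erase b, (b - j)) / _ = 0
  rw [this, zero_div]

lemma L2_mono (A B : Finset F) (hA : 0 < A.card) (hB : 0 < B.card) (i j : ℕ)
    (hij : i + j ≤ (A.card - 1) + (B.card - 1)) :
    L2 A B (fun a b => a ^ i * b ^ j) =
      if i = A.card - 1 ∧ j = B.card - 1 then 1 else 0 := by
  have h1 : L2 A B (fun a b => a ^ i * b ^ j)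
      = L A (fun a => a ^ i) * L B (fun b => b ^ j) := by
    unfold L2
    have : ∀ a, L B (fun b => a ^ i * b ^ j) = a ^ i * L B (fun b => b ^ j) :=
      fun a => L_const_mul B _ _
    simp_rw [this]
    exact L_mul_const A _ _
  rw [h1]
  by_cases hi : i < A.card - 1
  · rw [L_pow A i (by omega), if_neg (by omega), zero_mul, if_neg (by omega)]
  · rw [L_pow B j (by omega)]
    by_cases hj : j = B.card - 1
    · have hi' : i = A.card - 1 := by omega
      rw [L_pow A i (by omega), if_pos hi', if_pos hj, if_pos ⟨hi', hj⟩, one_mul]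
    · rw [if_neg hj, mul_zero, if_neg (fun h => hj h.2)]

lemma L2_sum {ι : Type*} (A B : Finset F) (s : Finset ι) (f : ι → F → F → F) :
    L2 A B (fun a b => ∑ i ∈ s, f i a b) = ∑ i ∈ s, L2 A B (f i) := by
  unfold L2
  simp_rw [L_sum]

lemma L2_sub (A B : Finset F) (f g : F → F → F) :
    L2 A B (fun a b => f a b - g a b) = L2 A B f - L2 A B g := by
  unfold L2
  simp_rw [L_sub]

lemma L2_const_mul (A B : Finset F) (g : F → F → F) (c : F) :
    L2 A B (fun a b => c * g a b) = c * L2 A B g := by
  unfold L2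
  simp_rw [L_const_mul]

omit [DecidableEq F] in
lemma expand (x y : F) (m : ℕ) : (x - y) * (x + y) ^ m =
    ∑ i ∈ range (m + 1), ((m.choose i : F) * (x ^ (i + 1) * y ^ (m - i))
      - (m.choose i : F) * (x ^ i * y ^ (m - i + 1))) := by
  rw [add_pow, Finset.mul_sum]
  refine Finset.sum_congr rfl fun i _ => ?_
  ring

lemma L2_expand (A B : Finset F) (hA : 0 < A.card) (hB : 0 < B.card) (m : ℕ)
    (hm : m + 1 ≤ (A.card - 1) + (B.card - 1)) :
    L2 A B (fun a b => (a - b) * (a + b) ^ m) =
      ∑ i ∈ range (m + 1), ((m.choose i : F) *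
        (if i + 1 = A.card - 1 ∧ m - i = B.card - 1 then 1 else 0)
      - (m.choose i : F) * (if i = A.card - 1 ∧ m - i + 1 = B.card - 1 then 1 else 0)) := by
  simp_rw [expand]
  rw [L2_sum]
  refine Finset.sum_congr rfl fun i hi => ?_
  rw [mem_range] at hi
  rw [L2_sub, L2_const_mul, L2_const_mul, L2_mono A B hA hB (i + 1) (m - i) (by omega),
    L2_mono A B hA hB i (m - i + 1) (by omega)]

lemma L2_low (A B : Finset F) (hA : 0 < A.card) (hB : 0 < B.card) (m : ℕ)
    (hm : m + 1 < (A.card - 1) + (B.card - 1)) :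
    L2 A B (fun a b => (a - b) * (a + b) ^ m) = 0 := by
  rw [L2_expand A B hA hB m hm.le]
  refine Finset.sum_eq_zero fun i hi => ?_
  rw [mem_range] at hi
  rw [if_neg (by omega), if_neg (by omega)]
  simp

lemma L2_top (A B : Finset F) (N : ℕ) (hA : A.card = N + 2) (hB : B.card = N + 1) :
    L2 A B (fun a b => (a - b) * (a + b) ^ (2 * N)) =
      ((2 * N).choose N : F) - ((2 * N).choose (N + 1) : F) := by
  rw [L2_expand A B (by omega) (by omega) (2 * N) (by omega), Finset.sum_sub_distrib]
  congr 1
  · rw [Finset.sum_eq_single N]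
    · rw [if_pos (by omega), mul_one]
    · intro b _ hb
      rw [if_neg (by omega), mul_zero]
    · intro h
      exact absurd (mem_range.2 (by omega)) h
  · rw [Finset.sum_eq_single (N + 1)]
    · by_cases hN : N = 0
      · subst hN
        simp
      · rw [if_pos (by omega), mul_one]
    · intro b hb hb'
      rw [mem_range] at hb
      rw [if_neg (by omega), mul_zero]
    · intro h
      rw [mem_range, not_lt] at h
      rw [Nat.choose_eq_zero_of_lt (by omega)]
      simp

lemma L2_poly (A B : Finset F) (N : ℕ) (hA : A.card = N + 2) (hB : B.card = N + 1)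
    (P : Polynomial F) (hP : P.Monic) (hd : P.natDegree = 2 * N) :
    L2 A B (fun a b => (a - b) * P.eval (a + b)) =
      ((2 * N).choose N : F) - ((2 * N).choose (N + 1) : F) := by
  have h1 : (fun a b : F => (a - b) * P.eval (a + b)) = fun a b =>
      ∑ j ∈ range (2 * N + 1), P.coeff j * ((a - b) * (a + b) ^ j) := by
    funext a b
    rw [Polynomial.eval_eq_sum_range, hd, Finset.mul_sum]
    refine Finset.sum_congr rfl fun j _ => ?_
    ring
  rw [h1, L2_sum, Finset.sum_range_succ]
  have h2 : P.coeff (2 * N) = 1 := by rw [← hd]; exact hP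
  rw [Finset.sum_eq_zero, L2_const_mul, L2_top A B N hA hB, h2]
  · ring
  · intro j hj
    rw [mem_range] at hj
    rw [L2_const_mul, L2_low A B (by omega) (by omega) j (by omega), mul_zero]

/-- The set of sums of two distinct elements of `A`. -/
def dsum {G : Type*} [AddCommGroup G] [DecidableEq G] (A : Finset G) : Finset G :=
  A.offDiag.image (fun x => x.1 + x.2)

lemma mem_dsum {G : Type*} [AddCommGroup G] [DecidableEq G] {A : Finset G} {s : G} :
    s ∈ dsum A ↔ ∃ a ∈ A, ∃ b ∈ A, a ≠ b ∧ a + b = s := by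
  simp only [dsum, mem_image, mem_offDiag, Prod.exists]
  constructor
  · rintro ⟨a, b, ⟨ha, hb, hab⟩, h⟩
    exact ⟨a, ha, b, hb, hab, h⟩
  · rintro ⟨a, ha, b, hb, hab, h⟩
    exact ⟨a, b, ⟨ha, hb, hab⟩, h⟩

theorem key (A : Finset F) (N : ℕ) (hA : A.card = N + 2)
    (hne : ((2 * N).choose N : F) - ((2 * N).choose (N + 1) : F) ≠ 0) :
    2 * N + 1 ≤ (dsum A).card := by
  by_contra hlt
  push Not at hlt
  obtain ⟨a0, ha0⟩ : A.Nonempty := by
    rw [← Finset.card_pos]; omega
  set B := A.erase a0 with hB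
  have hBc : B.card = N + 1 := by rw [hB, card_erase_of_mem ha0]; omega
  set P : Polynomial F := (∏ c ∈ dsum A, (Polynomial.X - Polynomial.C c)) *
    Polynomial.X ^ (2 * N - (dsum A).card) with hP
  have hm1 : (∏ c ∈ dsum A, (Polynomial.X - Polynomial.C c)).Monic :=
    Polynomial.monic_prod_of_monic _ _ fun c _ => Polynomial.monic_X_sub_C c
  have hmon : P.Monic := hm1.mul (Polynomial.monic_X_pow _)
  have hdeg : P.natDegree = 2 * N := by
    rw [hP, hm1.natDegree_mul (Polynomial.monic_X_pow _), Polynomial.natDegree_X_pow,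
      Polynomial.natDegree_prod_of_monic _ _ (fun c _ => Polynomial.monic_X_sub_C c)]
    simp only [Polynomial.natDegree_X_sub_C, sum_const, smul_eq_mul, mul_one]
    omega
  apply hne
  rw [← L2_poly A B N hA hBc P hmon hdeg]
  apply L2_zero_of
  intro a ha b hb
  by_cases hab : a = b
  · rw [hab, sub_self, zero_mul]
  · have hmem : a + b ∈ dsum A := mem_dsum.2 ⟨a, ha, b, (mem_erase.1 hb).2, hab, rfl⟩
    rw [hP, Polynomial.eval_mul, Polynomial.eval_prod, Finset.prod_eq_zero hmem (by simp)]
    ring

/-- Erdős–Heilbronn, two summands from the same set, when `2|A| - 3 ≤ p`. -/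
theorem erdos_heilbronn {p : ℕ} [Fact p.Prime] (A : Finset (ZMod p)) (h2 : 2 ≤ A.card)
    (hle : 2 * A.card - 3 ≤ p) : 2 * A.card - 3 ≤ (dsum A).card := by
  obtain ⟨N, hN⟩ : ∃ N, A.card = N + 2 := ⟨A.card - 2, by omega⟩
  have hlt : 2 * N < p := by omega
  have := key A N hN (by
    intro h0
    have h1 : (2 * N).choose (N + 1) * (N + 1) = (2 * N).choose N * N := by
      rw [Nat.choose_succ_right_eq]; congr 1; omega
    have h2 : (((2 * N).choose N : ℕ) : ZMod p) = 0 := by
      have h3 : (((2 * N).choose (N + 1) : ℕ) : ZMod p) * ((N : ZMod p) + 1)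
          = ((2 * N).choose N : ZMod p) * N := by exact_mod_cast congrArg (Nat.cast (R := ZMod p)) h1
      have h4 : (((2 * N).choose N : ℕ) : ZMod p) = ((2 * N).choose (N + 1) : ℕ) :=
        sub_eq_zero.1 h0
      rw [← h4] at h3
      linear_combination h3
    rw [ZMod.natCast_eq_zero_iff] at h2
    have h5 : (2 * N).choose N ∣ (2 * N).factorial := by
      refine ⟨N.factorial * (2 * N - N).factorial, ?_⟩
      rw [← Nat.choose_mul_factorial_mul_factorial (show N ≤ 2 * N by omega)]
      ring
    have h6 := (Nat.Prime.dvd_factorial (Fact.out : p.Prime)).1 (h2.trans h5)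
    omega)
  omega

end Pool.Agent.Q258.EH
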