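import Mathlib

set_option autoImplicit false

/-!
Pairs of integers up to `n` whose product is a fourth power: a large matching.
-/

namespace Pool.Agent.Q258.FourthPow

open Finset

/-- uniqueness of the squarefree part -/
theorem sqf_unique {s t s' t' : ℕ} (hs : Squarefree s) (hs' : Squarefree s') (ht : t ≠ 0)
    (ht' : t' ≠ 0) (h : s * t ^ 2 = s' * t' ^ 2) : s = s' := by
  have hs0 := hs.ne_zero
  have hs0' := hs'.ne_zero
  apply Nat.eq_of_factorization_eq hs0 hs0'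
  intro p
  have h1 : (s * t ^ 2).factorization p = (s' * t' ^ 2).factorization p := by rw [h]
  rw [Nat.factorization_mul hs0 (pow_ne_zero 2 ht), Nat.factorization_mul hs0' (pow_ne_zero 2 ht'),
    Nat.factorization_pow, Nat.factorization_pow] at h1
  simp only [Finsupp.add_apply, Finsupp.smul_apply, smul_eq_mul] at h1
  have h2 := hs.natFactorization_le_one p
  have h3 := hs'.natFactorization_le_one p
  omega

theorem key {x y x' y' : ℕ} (hx : 0 < x) (hx' : 0 < x') (hxy : x < y) (hxy' : x' < y')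
    (hy : y.Prime) (hy' : y'.Prime) (h : x * y = x' * y') : x = x' ∧ y = y' := by
  have hyy : y = y' := by
    have h1 : y ∣ x' * y' := h ▸ Dvd.intro_left x rfl
    have h2 : y' ∣ x * y := h ▸ Dvd.intro_left x' rfl
    rcases (Nat.Prime.dvd_mul hy).1 h1 with h3 | h3
    · have h4 := Nat.le_of_dvd hx' h3
      rcases (Nat.Prime.dvd_mul hy').1 h2 with h5 | h5
      · have h6 := Nat.le_of_dvd hx h5; omega
      · exact ((Nat.prime_dvd_prime_iff_eq hy' hy).1 h5).symm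
    · exact (Nat.prime_dvd_prime_iff_eq hy hy').1 h3
  refine ⟨?_, hyy⟩
  subst hyy
  exact Nat.eq_of_mul_eq_mul_right hy.pos h

theorem sqf_mul {x y : ℕ} (hx : Squarefree x) (hy : y.Prime) (hxy : x < y) :
    Squarefree (x * y) := by
  rw [Nat.squarefree_mul]
  · exact ⟨hx, hy.squarefree⟩
  · exact (Nat.coprime_of_lt_prime hx.ne_zero hxy hy).symm

/-- first member of the pair -/
def ea (q : ℕ × ℕ × ℕ) : ℕ := q.2.1 * q.1 ^ 3 * q.2.2 ^ 2
/-- second member of the pair -/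
def eb (q : ℕ × ℕ × ℕ) : ℕ := q.2.1 ^ 3 * q.1 * q.2.2 ^ 2

/-- admissible parameters `(y, x, z)` -/
def Good (q : ℕ × ℕ × ℕ) : Prop :=
  q.1.Prime ∧ Squarefree q.2.1 ∧ q.2.1 < q.1 ∧ 0 < q.2.2 ∧ ¬ q.1 ∣ q.2.2

theorem base {q q' : ℕ × ℕ × ℕ} (hq : Good q) (hq' : Good q') {u v : ℕ} (hu : u ≠ 0) (hv : v ≠ 0)
    (h : q.2.1 * q.1 * u ^ 2 = q'.2.1 * q'.1 * v ^ 2) : q.2.1 = q'.2.1 ∧ q.1 = q'.1 := by
  obtain ⟨h1, h2, h3, h4, h5⟩ := hq
  obtain ⟨h1', h2', h3', h4', h5'⟩ := hq'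
  have := sqf_unique (sqf_mul h2 h1 h3) (sqf_mul h2' h1' h3') hu hv h
  exact key (Nat.pos_of_ne_zero h2.ne_zero) (Nat.pos_of_ne_zero h2'.ne_zero) h3 h3' h1 h1' this

theorem ea_inj {q q' : ℕ × ℕ × ℕ} (hq : Good q) (hq' : Good q') (h : ea q = ea q') : q = q' := by
  have h0 : q.1 * q.2.2 ≠ 0 := (Nat.mul_pos hq.1.pos hq.2.2.2.1).ne'
  have h0' : q'.1 * q'.2.2 ≠ 0 := (Nat.mul_pos hq'.1.pos hq'.2.2.2.1).ne'
  obtain ⟨e1, e2⟩ := base hq hq' h0 h0' (by unfold ea at h; nlinarith)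
  unfold ea at h
  rw [e1, e2] at h
  have hpos : 0 < q'.2.1 * q'.1 ^ 3 :=
    Nat.mul_pos (Nat.pos_of_ne_zero hq'.2.1.ne_zero) (pow_pos hq'.1.pos 3)
  have e3 := Nat.pow_left_injective (n := 2) (by norm_num) (Nat.eq_of_mul_eq_mul_left hpos h)
  exact Prod.ext e2 (Prod.ext e1 e3)

theorem eb_inj {q q' : ℕ × ℕ × ℕ} (hq : Good q) (hq' : Good q') (h : eb q = eb q') : q = q' := by
  have hx := Nat.pos_of_ne_zero hq.2.1.ne_zero
  have hx' := Nat.pos_of_ne_zero hq'.2.1.ne_zero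
  have h0 : q.2.1 * q.2.2 ≠ 0 := (Nat.mul_pos hx hq.2.2.2.1).ne'
  have h0' : q'.2.1 * q'.2.2 ≠ 0 := (Nat.mul_pos hx' hq'.2.2.2.1).ne'
  obtain ⟨e1, e2⟩ := base hq hq' h0 h0' (by unfold eb at h; nlinarith)
  unfold eb at h
  rw [e1, e2] at h
  have hpos : 0 < q'.2.1 ^ 3 * q'.1 := Nat.mul_pos (pow_pos hx' 3) hq'.1.pos
  have e3 := Nat.pow_left_injective (n := 2) (by norm_num) (Nat.eq_of_mul_eq_mul_left hpos h)
  exact Prod.ext e2 (Prod.ext e1 e3)

theorem ea_ne_eb {q q' : ℕ × ℕ × ℕ} (hq : Good q) (hq' : Good q') : ea q ≠ eb q' := by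
  intro h
  have hx := Nat.pos_of_ne_zero hq.2.1.ne_zero
  have hx' := Nat.pos_of_ne_zero hq'.2.1.ne_zero
  have h0 : q.1 * q.2.2 ≠ 0 := (Nat.mul_pos hq.1.pos hq.2.2.2.1).ne'
  have h0' : q'.2.1 * q'.2.2 ≠ 0 := (Nat.mul_pos hx' hq'.2.2.2.1).ne'
  obtain ⟨e1, e2⟩ := base hq hq' h0 h0' (by unfold ea eb at h; nlinarith)
  unfold ea eb at h
  rw [e1, e2] at h
  have h1 : (q'.2.1 * q'.1) * (q'.1 * q.2.2) ^ 2 = (q'.2.1 * q'.1) * (q'.2.1 * q'.2.2) ^ 2 := by
    nlinarith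
  have h2 := Nat.eq_of_mul_eq_mul_left (Nat.mul_pos hx' hq'.1.pos) h1
  have h3 : q'.1 * q.2.2 = q'.2.1 * q'.2.2 := Nat.pow_left_injective (n := 2) (by norm_num) h2
  have h4 : q'.1 ∣ q'.2.1 * q'.2.2 := h3 ▸ Dvd.intro _ rfl
  rcases (Nat.Prime.dvd_mul hq'.1).1 h4 with h5 | h5
  · have := Nat.le_of_dvd hx' h5
    have := hq'.2.2.1
    omega
  · exact hq'.2.2.2.2 h5

theorem ea_mul_eb (q : ℕ × ℕ × ℕ) : ea q * eb q = (q.2.1 * q.1 * q.2.2) ^ 4 := by
  unfold ea eb; ring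

theorem eb_le_ea {q : ℕ × ℕ × ℕ} (hq : Good q) : eb q ≤ ea q := by
  unfold ea eb
  apply Nat.mul_le_mul_right
  have h : q.2.1 ≤ q.1 := hq.2.2.1.le
  have : q.2.1 ^ 2 ≤ q.1 ^ 2 := Nat.pow_le_pow_left h 2
  calc q.2.1 ^ 3 * q.1 = (q.2.1 * q.1) * q.2.1 ^ 2 := by ring
    _ ≤ (q.2.1 * q.1) * q.1 ^ 2 := Nat.mul_le_mul_left _ this
    _ = _ := by ring

/-- the deficiency of a set without such pairs is at least the number of parameters -/
theorem card_le (n : ℕ) (A : Finset ℕ) (hA : A ⊆ Icc 1 n)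
    (hadm : ∀ a ∈ A, ∀ b ∈ A, a ≠ b → ∀ x : ℕ, a * b ≠ x ^ 4)
    (I : Finset (ℕ × ℕ × ℕ)) (hI : ∀ q ∈ I, Good q ∧ ea q ≤ n) : I.card + A.card ≤ n := by
  classical
  have h1 : I.card ≤ (Icc 1 n \ A).card := by
    apply card_le_card_of_injOn (fun q => if ea q ∈ A then eb q else ea q)
    · intro q hq
      obtain ⟨hg, hle⟩ := hI q hq
      have hxp := Nat.pos_of_ne_zero hg.2.1.ne_zero
      have hyp := hg.1.pos
      have hzp := hg.2.2.2.1
      have hpa : 0 < ea q := by unfold ea; positivity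
      have hpb : 0 < eb q := by unfold eb; positivity
      simp only [coe_sdiff, Set.mem_sdiff, mem_coe, mem_Icc]
      split_ifs with h
      · refine ⟨⟨hpb, (eb_le_ea hg).trans hle⟩, fun hb => ?_⟩
        exact hadm _ h _ hb (ea_ne_eb hg hg) _ (ea_mul_eb q)
      · exact ⟨⟨hpa, hle⟩, h⟩
    · intro q hq q' hq' h
      obtain ⟨hg, _⟩ := hI q hq
      obtain ⟨hg', _⟩ := hI q' hq'
      simp only at h
      split_ifs at h
      · exact eb_inj hg hg' h
      · exact absurd h.symm (ea_ne_eb hg' hg)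
      · exact absurd h (ea_ne_eb hg hg')
      · exact ea_inj hg hg' h
  rw [card_sdiff_of_subset hA, Nat.card_Icc, Nat.add_sub_cancel] at h1
  have h2 : A.card ≤ n := by
    have := card_le_card hA
    rwa [Nat.card_Icc, Nat.add_sub_cancel] at this
  omega

theorem sum_sq (N : ℕ) (hN : 2 ≤ N) : ∑ k ∈ Icc 2 N, (1 : ℝ) / (k : ℝ) ^ 2 ≤ 3 / 4 - 1 / N := by
  induction N, hN using Nat.le_induction with
  | base => norm_num
  | succ N hN ih =>
    rw [sum_Icc_succ_top (by omega)]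
    have hN0 : (2 : ℝ) ≤ N := by exact_mod_cast hN
    have h : (1 : ℝ) / ((N + 1 : ℕ) : ℝ) ^ 2 ≤ 1 / N - 1 / ((N + 1 : ℕ) : ℝ) := by
      push_cast
      rw [div_sub_div _ _ (by positivity) (by positivity), div_le_div_iff₀ (by positivity)
        (by positivity)]
      nlinarith
    linarith

/-- at least a quarter of the integers up to `N` are squarefree -/
theorem card_sqf (N : ℕ) : (N : ℝ) / 4 ≤ ((Icc 1 N).filter (fun x => Squarefree x)).card := by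
  classical
  rcases Nat.lt_or_ge N 2 with h | h
  · interval_cases N
    · simp
    · have : (1 : ℕ) ∈ (Icc 1 1).filter (fun x : ℕ => Squarefree x) := by simp
      have h2 : 1 ≤ ((Icc 1 1).filter (fun x : ℕ => Squarefree x)).card := card_pos.2 ⟨1, this⟩
      have h3 : (1 : ℝ) ≤ ((Icc 1 1).filter (fun x : ℕ => Squarefree x)).card := by exact_mod_cast h2
      have h4 : ((1 : ℕ) : ℝ) / 4 ≤ 1 := by norm_num
      linarith
  have h1 : ((Icc 1 N).filter (fun x => ¬ Squarefree x)).card ≤ ∑ k ∈ Icc 2 N, N / k ^ 2 := by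
    calc ((Icc 1 N).filter (fun x => ¬ Squarefree x)).card
        ≤ ((Icc 2 N).biUnion (fun k => (Ioc 0 N).filter (fun x => k ^ 2 ∣ x))).card := by
          apply card_le_card
          intro x hx
          rw [mem_filter, mem_Icc] at hx
          obtain ⟨⟨hx1, hx2⟩, hx3⟩ := hx
          rw [mem_biUnion]
          rw [Nat.squarefree_iff_prime_squarefree] at hx3
          push Not at hx3
          obtain ⟨p, hp, hd⟩ := hx3
          have hpx : p ≤ x := by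
            have h1 := Nat.le_of_dvd (by omega) hd
            have h2 : p * 1 ≤ p * p := Nat.mul_le_mul_left p hp.one_lt.le
            omega
          refine ⟨p, mem_Icc.2 ⟨hp.two_le, by omega⟩, mem_filter.2 ⟨mem_Ioc.2 ⟨by omega, hx2⟩, ?_⟩⟩
          rwa [pow_two]
      _ ≤ ∑ k ∈ Icc 2 N, ((Ioc 0 N).filter (fun x => k ^ 2 ∣ x)).card := card_biUnion_le
      _ = ∑ k ∈ Icc 2 N, N / k ^ 2 := by
          apply sum_congr rfl
          intro k _
          exact Nat.Ioc_filter_dvd_card_eq_div N (k ^ 2)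
  have h2 : ((∑ k ∈ Icc 2 N, N / k ^ 2 : ℕ) : ℝ) ≤ N * (3 / 4) := by
    push_cast
    calc (∑ k ∈ Icc 2 N, ((N / k ^ 2 : ℕ) : ℝ)) ≤ ∑ k ∈ Icc 2 N, (N : ℝ) * (1 / (k : ℝ) ^ 2) := by
          apply sum_le_sum
          intro k _
          rw [mul_one_div]
          have := Nat.cast_div_le (α := ℝ) (m := N) (n := k ^ 2)
          push_cast at this
          exact this
      _ = N * ∑ k ∈ Icc 2 N, (1 : ℝ) / (k : ℝ) ^ 2 := by rw [mul_sum]
      _ ≤ N * (3 / 4) := by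
          apply mul_le_mul_of_nonneg_left _ (Nat.cast_nonneg N)
          have := sum_sq N h
          have : (0 : ℝ) ≤ 1 / N := by positivity
          linarith
  have h3 := card_filter_add_card_filter_not (s := Icc 1 N) (fun x => Squarefree x)
  rw [Nat.card_Icc, Nat.add_sub_cancel] at h3
  have h4 : (((Icc 1 N).filter (fun x => Squarefree x)).card : ℝ) +
      ((Icc 1 N).filter (fun x => ¬ Squarefree x)).card = N := by exact_mod_cast h3
  have h5 : (((Icc 1 N).filter (fun x => ¬ Squarefree x)).card : ℝ) ≤ N * (3 / 4) :=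
    le_trans (by exact_mod_cast h1) h2
  linarith

theorem card_Z (n x y : ℕ) (hx : 0 < x) (hxy : x < y) (hy : 2 ≤ y) :
    (Real.sqrt n / (y : ℝ) ^ 2 - 1) / 2 ≤
      ((Icc 1 (Nat.sqrt (n / (x * y ^ 3)))).filter (fun z => ¬ y ∣ z)).card := by
  set M := Nat.sqrt (n / (x * y ^ 3)) with hM
  have h1 := card_filter_add_card_filter_not (s := Icc 1 M) (fun z => y ∣ z)
  rw [Nat.card_Icc, Nat.add_sub_cancel] at h1
  have h2 : ((Icc 1 M).filter (fun z => y ∣ z)).card = M / y := Nat.Ioc_filter_dvd_card_eq_div M y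
  rw [h2] at h1
  have h3 : (M : ℝ) / 2 ≤ ((Icc 1 M).filter (fun z => ¬ y ∣ z)).card := by
    have h4 : 2 * (M / y) ≤ M := by
      have := Nat.div_mul_le_self M y
      have : M / y * 2 ≤ M / y * y := Nat.mul_le_mul_left _ hy
      omega
    have h5 : M ≤ 2 * ((Icc 1 M).filter (fun z => ¬ y ∣ z)).card := by omega
    have h6 : (M : ℝ) ≤ 2 * ((Icc 1 M).filter (fun z => ¬ y ∣ z)).card := by exact_mod_cast h5
    linarith
  have hy0 : (0 : ℝ) < y := by exact_mod_cast (by omega : 0 < y)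
  have h7 : Real.sqrt n / (y : ℝ) ^ 2 ≤ (M : ℝ) + 1 := by
    rw [div_le_iff₀ (by positivity)]
    apply Real.sqrt_le_iff.2
    refine ⟨by positivity, ?_⟩
    have h8 : n / (x * y ^ 3) < (M + 1) * (M + 1) := Nat.lt_succ_sqrt _
    have hpos : 0 < x * y ^ 3 := Nat.mul_pos hx (pow_pos (by omega) 3)
    have h9 : n < (M + 1) * (M + 1) * (x * y ^ 3) := (Nat.div_lt_iff_lt_mul hpos).1 h8
    have h10 : x * y ^ 3 ≤ y ^ 4 := by
      calc x * y ^ 3 ≤ y * y ^ 3 := Nat.mul_le_mul_right _ hxy.le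
        _ = y ^ 4 := by ring
    have h11 : n ≤ (M + 1) * (M + 1) * y ^ 4 := h9.le.trans (Nat.mul_le_mul_left _ h10)
    have h12 : (n : ℝ) ≤ ((M : ℝ) + 1) * ((M : ℝ) + 1) * (y : ℝ) ^ 4 := by exact_mod_cast h11
    calc (n : ℝ) ≤ _ := h12
      _ = _ := by ring
  linarith

/-- for every `K` the deficiency is at least `K √n` for large `n` -/
theorem deficiency (K : ℝ) : ∃ n0 : ℕ, ∀ n : ℕ, n0 ≤ n →
    ∃ m : ℕ, K * Real.sqrt n ≤ m ∧ m ≤ n ∧ ∀ A : Finset ℕ, A ⊆ Icc 1 n →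
      (∀ a ∈ A, ∀ b ∈ A, a ≠ b → ∀ x : ℕ, a * b ≠ x ^ 4) → A.card + m ≤ n := by
  classical
  obtain ⟨P, hP⟩ : ∃ P : Finset Nat.Primes, 16 * (K + 1) ≤ ∑ p ∈ P, (1 : ℝ) / (p : ℕ) := by
    by_contra hcon
    push Not at hcon
    apply Nat.Primes.not_summable_one_div
    exact summable_of_sum_le (fun p => by positivity) (fun P => (hcon P).le)
  set S : Nat.Primes → Finset ℕ := fun y => (Icc 1 ((y : ℕ) - 1)).filter (fun x => Squarefree x)
    with hS
  set C : ℝ := ∑ y ∈ P, ((S y).card : ℝ) / 2 with hC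
  obtain ⟨n0, hn0⟩ := exists_nat_ge (C ^ 2)
  refine ⟨n0, fun n hn => ?_⟩
  set Z : Nat.Primes → ℕ → Finset ℕ := fun y x =>
    (Icc 1 (Nat.sqrt (n / (x * (y : ℕ) ^ 3)))).filter (fun z => ¬ (y : ℕ) ∣ z) with hZ
  set I0 : Finset (Σ _ : Nat.Primes, Σ _ : ℕ, ℕ) := P.sigma (fun y => (S y).sigma (fun x => Z y x))
    with hI0
  set I : Finset (ℕ × ℕ × ℕ) := I0.image (fun t => ((t.1 : ℕ), t.2.1, t.2.2)) with hI
  have hcard : I.card = ∑ y ∈ P, ∑ x ∈ S y, (Z y x).card := by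
    rw [hI, card_image_of_injective, hI0, card_sigma]
    · apply sum_congr rfl
      intro y _
      rw [card_sigma]
    · rintro ⟨⟨y, hy⟩, x, z⟩ ⟨⟨y', hy'⟩, x', z'⟩ h
      simp only [Prod.mk.injEq] at h
      obtain ⟨h1, h2, h3⟩ := h
      subst h1 h2 h3
      rfl
  have hgood : ∀ q ∈ I, Good q ∧ ea q ≤ n := by
    intro q hq
    rw [hI, mem_image] at hq
    obtain ⟨⟨⟨y, hy⟩, x, z⟩, hm, rfl⟩ := hq
    rw [hI0, mem_sigma, mem_sigma] at hm
    obtain ⟨_, h2, h3⟩ := hm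
    simp only [hS, hZ, mem_filter, mem_Icc] at h2 h3
    obtain ⟨⟨h4, h5⟩, h6⟩ := h2
    obtain ⟨⟨h7, h8⟩, h9⟩ := h3
    have hy2 := hy.two_le
    refine ⟨⟨hy, h6, ?_, Nat.lt_of_lt_of_le Nat.zero_lt_one h7, h9⟩, ?_⟩
    · change x < y
      omega
    · unfold ea
      change x * y ^ 3 * z ^ 2 ≤ n
      have h10 : z * z ≤ n / (x * y ^ 3) := by
        calc z * z ≤ Nat.sqrt (n / (x * y ^ 3)) * Nat.sqrt (n / (x * y ^ 3)) :=
              Nat.mul_le_mul h8 h8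
          _ ≤ _ := Nat.sqrt_le _
      calc x * y ^ 3 * z ^ 2 = (z * z) * (x * y ^ 3) := by ring
        _ ≤ n / (x * y ^ 3) * (x * y ^ 3) := Nat.mul_le_mul_right _ h10
        _ ≤ n := Nat.div_mul_le_self _ _
  refine ⟨I.card, ?_, ?_, ?_⟩
  · have h1 : ∑ y ∈ P, ∑ x ∈ S y, (Real.sqrt n / ((y : ℕ) : ℝ) ^ 2 - 1) / 2 ≤ (I.card : ℝ) := by
      rw [hcard]
      push_cast
      apply sum_le_sum
      intro y _
      apply sum_le_sum
      intro x hx
      simp only [hS, mem_filter, mem_Icc] at hx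
      have hy2 := y.2.two_le
      exact card_Z n x y (by omega) (by omega) hy2
    have h2 : ∑ y ∈ P, ∑ x ∈ S y, (Real.sqrt n / ((y : ℕ) : ℝ) ^ 2 - 1) / 2 =
        (∑ y ∈ P, ((S y).card : ℝ) * (Real.sqrt n / ((y : ℕ) : ℝ) ^ 2 / 2)) - C := by
      rw [hC, ← sum_sub_distrib]
      apply sum_congr rfl
      intro y _
      rw [sum_const, nsmul_eq_mul]
      ring
    have h3 : Real.sqrt n * ((1 / 16) * ∑ p ∈ P, (1 : ℝ) / (p : ℕ)) ≤
        ∑ y ∈ P, ((S y).card : ℝ) * (Real.sqrt n / ((y : ℕ) : ℝ) ^ 2 / 2) := by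
      rw [mul_sum, mul_sum]
      apply sum_le_sum
      intro y _
      have hy2 : (2 : ℝ) ≤ (y : ℕ) := by exact_mod_cast y.2.two_le
      have h4 := card_sqf ((y : ℕ) - 1)
      have h5 : (((y : ℕ) - 1 : ℕ) : ℝ) = (y : ℕ) - 1 := by
        rw [Nat.cast_sub y.2.one_lt.le]; norm_num
      rw [h5] at h4
      have h6 : ((y : ℕ) : ℝ) / 8 ≤ (S y).card := by
        simp only [hS]
        linarith
      have h7 : (0 : ℝ) ≤ Real.sqrt n / ((y : ℕ) : ℝ) ^ 2 / 2 := by positivity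
      calc Real.sqrt n * (1 / 16 * (1 / ((y : ℕ) : ℝ)))
          = ((y : ℕ) : ℝ) / 8 * (Real.sqrt n / ((y : ℕ) : ℝ) ^ 2 / 2) := by
            field_simp
            ring
        _ ≤ _ := mul_le_mul_of_nonneg_right h6 h7
    have h4 : C ≤ Real.sqrt n := by
      apply Real.le_sqrt_of_sq_le
      have : (n0 : ℝ) ≤ n := by exact_mod_cast hn
      linarith
    have h5 : (0 : ℝ) ≤ Real.sqrt n := Real.sqrt_nonneg _
    nlinarith
  · have := card_le n ∅ (by simp) (by simp) I hgood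
    simpa using this
  · intro A hA hadm
    have := card_le n A hA hadm I hgood
    omega

end Pool.Agent.Q258.FourthPow
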