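import Mathlib

set_option autoImplicit false

/-!
A kernel-friendly sieve: bit patterns of multiples, and a population count by adding lanes.
-/

namespace Pool.Agent.Q258.KSieve

open Finset

/-- bits at the multiples `0, p, 2p, …, (T-1)p` of `p` -/
def pat (p T : ℕ) : ℕ := Nat.div (Nat.sub (Nat.pow 2 (Nat.mul p T)) 1) (Nat.sub (Nat.pow 2 p) 1)

theorem pat_eq {p : ℕ} (hp : 0 < p) (T : ℕ) : pat p T = ∑ t ∈ range T, 2 ^ (p * t) := by
  have h : 2 ≤ 2 ^ p := by
    calc 2 = 2 ^ 1 := by norm_num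
      _ ≤ 2 ^ p := Nat.pow_le_pow_right (by norm_num) hp
  have h1 := Nat.geomSum_eq h T
  simp only [← pow_mul] at h1
  rw [h1]
  rfl

theorem pat_zero (p : ℕ) : pat p 0 = 0 := by
  have : pat p 0 = (2 ^ (p * 0) - 1) / (2 ^ p - 1) := rfl
  rw [this]; simp

theorem pat_succ {p : ℕ} (hp : 0 < p) (T : ℕ) : pat p (T + 1) = 2 ^ (p * T) + pat p T := by
  rw [pat_eq hp, pat_eq hp, sum_range_succ, add_comm]

theorem pat_succ' {p : ℕ} (hp : 0 < p) (T : ℕ) : pat p (T + 1) = 1 + 2 ^ p * pat p T := by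
  rw [pat_eq hp, pat_eq hp, sum_range_succ', mul_sum, add_comm]
  congr 1
  apply sum_congr rfl
  intro i _
  rw [← pow_add]
  congr 1
  ring

theorem pat_lt {p : ℕ} (hp : 0 < p) (T : ℕ) : pat p T < 2 ^ (p * T) := by
  induction T with
  | zero => simp [pat_zero]
  | succ T ih =>
    rw [pat_succ hp, mul_add, mul_one, pow_add]
    have h : 2 ≤ 2 ^ p := by
      calc 2 = 2 ^ 1 := by norm_num
        _ ≤ 2 ^ p := Nat.pow_le_pow_right (by norm_num) hp
    nlinarith [Nat.one_le_two_pow (n := p * T)]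

theorem testBit_pat {p : ℕ} (hp : 0 < p) (T j : ℕ) :
    (pat p T).testBit j = decide (p ∣ j ∧ j < p * T) := by
  induction T with
  | zero =>
    rw [pat_zero]
    simp
  | succ T ih =>
    have e : pat p (T + 1) = 2 ^ (p * T) * 1 + pat p T := by rw [pat_succ hp]; ring
    rw [e, Nat.testBit_two_pow_mul_add _ (pat_lt hp T)]
    split_ifs with h
    · rw [ih]
      congr 1
      apply propext
      constructor
      · rintro ⟨h1, _⟩
        exact ⟨h1, by rw [mul_add]; omega⟩
      · rintro ⟨h1, _⟩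
        exact ⟨h1, h⟩
    · rw [show (1 : ℕ) = 2 ^ 0 from rfl, Nat.testBit_two_pow]
      congr 1
      apply propext
      constructor
      · intro h1
        have h2 : j = p * T := by omega
        rw [h2]
        exact ⟨Dvd.intro _ rfl, by rw [mul_add]; omega⟩
      · rintro ⟨⟨c, rfl⟩, h2⟩
        have h3 : c < T + 1 := Nat.lt_of_mul_lt_mul_left h2
        have h4 : T ≤ c := by
          by_contra h5
          exact h (Nat.mul_lt_mul_of_pos_left (by omega) hp)
        have : c = T := by omega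
        rw [this]
        omega

/-- bit `j < L` is set iff `a + j` is divisible by an element of the list -/
def flag (a L : ℕ) (ps : List ℕ) : ℕ :=
  List.rec 0 (fun p _ ih => Nat.lor (Nat.shiftLeft (pat p (Nat.succ (Nat.div L p)))
    (Nat.mod (Nat.sub p (Nat.mod a p)) p)) ih) ps

theorem off_dvd {a p j : ℕ} (hp : 0 < p) :
    (((p - a % p) % p) ≤ j ∧ p ∣ j - (p - a % p) % p) ↔ p ∣ a + j := by
  have ha : a % p < p := Nat.mod_lt a hp
  have hda := Nat.div_add_mod a p
  rcases Nat.eq_zero_or_pos (a % p) with h | h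
  · have h1 : (p - a % p) % p = 0 := by rw [h, Nat.sub_zero, Nat.mod_self]
    rw [h1, Nat.sub_zero]
    have h2 : p ∣ a := Nat.dvd_of_mod_eq_zero h
    rw [(Nat.dvd_add_right h2)]
    simp
  · have h1 : (p - a % p) % p = p - a % p := Nat.mod_eq_of_lt (by omega)
    rw [h1]
    constructor
    · rintro ⟨h2, c, hc⟩
      refine ⟨a / p + 1 + c, ?_⟩
      rw [mul_add, mul_add, ← hc]
      omega
    · rintro ⟨c, hc⟩
      have h3 : p * (a / p) < p * c := by omega
      have h4 : a / p < c := Nat.lt_of_mul_lt_mul_left h3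
      obtain ⟨d, rfl⟩ : ∃ d, c = a / p + 1 + d := ⟨c - (a / p + 1), by omega⟩
      rw [mul_add, mul_add, mul_one] at hc
      refine ⟨by omega, ⟨d, by omega⟩⟩

theorem testBit_flag (a L : ℕ) (ps : List ℕ) (hps : ∀ p ∈ ps, 0 < p) (j : ℕ) (hj : j < L) :
    (flag a L ps).testBit j = true ↔ ∃ p ∈ ps, p ∣ a + j := by
  induction ps with
  | nil => simp [flag]
  | cons p ps ih =>
    have hp : 0 < p := hps p (by simp)
    have e : flag a L (p :: ps) = (pat p (L / p + 1) <<< ((p - a % p) % p)) ||| flag a L ps := rfl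
    rw [e, Nat.testBit_or, Bool.or_eq_true, ih (fun q hq => hps q (by simp [hq])),
      Nat.testBit_shiftLeft, testBit_pat hp]
    have h1 : L < p * (L / p + 1) := by
      have := Nat.div_add_mod L p
      have := Nat.mod_lt L hp
      rw [mul_add]; omega
    have h2 : (decide (j ≥ (p - a % p) % p) &&
        decide (p ∣ j - (p - a % p) % p ∧ j - (p - a % p) % p < p * (L / p + 1))) = true ↔
        p ∣ a + j := by
      rw [← off_dvd hp, Bool.and_eq_true, decide_eq_true_iff, decide_eq_true_iff]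
      constructor
      · rintro ⟨h3, h4, _⟩; exact ⟨h3, h4⟩
      · rintro ⟨h3, h4⟩; exact ⟨h3, h4, by omega⟩
    rw [h2]
    simp

/-! ### Population count -/

/-- digit sum -/
def ds (w n v : ℕ) : ℕ := ∑ i ∈ range n, v / 2 ^ (w * i) % 2 ^ w

/-- mask of the even lanes of width `w` -/
def msk (w L : ℕ) : ℕ := Nat.mul (Nat.sub (Nat.pow 2 w) 1) (pat (Nat.mul 2 w) L)

/-- add neighbouring lanes -/
def fold (w L v : ℕ) : ℕ :=
  Nat.add (Nat.land v (msk w L)) (Nat.land (Nat.shiftRight v w) (msk w L))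

theorem ds_succ' (w n v : ℕ) : ds w (n + 1) v = v % 2 ^ w + ds w n (v / 2 ^ w) := by
  unfold ds
  rw [sum_range_succ', add_comm]
  congr 1
  · simp
  · apply sum_congr rfl
    intro i _
    rw [Nat.div_div_eq_div_mul, ← pow_add]
    congr 3
    ring

theorem land_add {k r x s y : ℕ} (hr : r < 2 ^ k) (hs : s < 2 ^ k) :
    (2 ^ k * x + r) &&& (2 ^ k * y + s) = 2 ^ k * (x &&& y) + (r &&& s) := by
  apply Nat.eq_of_testBit_eq
  intro i
  have h : r &&& s < 2 ^ k := lt_of_le_of_lt Nat.and_le_left hr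
  rw [Nat.testBit_and, Nat.testBit_two_pow_mul_add _ hr, Nat.testBit_two_pow_mul_add _ hs,
    Nat.testBit_two_pow_mul_add _ h]
  split_ifs
  · rw [Nat.testBit_and]
  · rw [Nat.testBit_and]

theorem msk_succ {w : ℕ} (hw : 0 < w) (L : ℕ) :
    msk w (L + 1) = 2 ^ (2 * w) * msk w L + (2 ^ w - 1) := by
  have e1 : msk w (L + 1) = (2 ^ w - 1) * pat (2 * w) (L + 1) := rfl
  have e2 : msk w L = (2 ^ w - 1) * pat (2 * w) L := rfl
  rw [e1, e2, pat_succ' (by omega)]
  ring

theorem fold_succ {w : ℕ} (hw : 0 < w) (L v : ℕ) :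
    fold w (L + 1) v = 2 ^ (2 * w) * fold w L (v / 2 ^ (2 * w)) +
      (v % 2 ^ w + v / 2 ^ w % 2 ^ w) := by
  have e : ∀ L v, fold w L v = (v &&& msk w L) + ((v / 2 ^ w) &&& msk w L) := fun L v => by
    rw [← Nat.shiftRight_eq_div_pow]; rfl
  rw [e, e, msk_succ hw]
  have hlt : 2 ^ w - 1 < 2 ^ (2 * w) := by
    have : 2 ^ w ≤ 2 ^ (2 * w) := Nat.pow_le_pow_right (by norm_num) (by omega)
    have := Nat.one_le_two_pow (n := w)
    omega
  have key : ∀ u : ℕ, u &&& (2 ^ (2 * w) * msk w L + (2 ^ w - 1)) =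
      2 ^ (2 * w) * (u / 2 ^ (2 * w) &&& msk w L) + u % 2 ^ w := by
    intro u
    conv_lhs => rw [← Nat.div_add_mod u (2 ^ (2 * w))]
    rw [land_add (Nat.mod_lt _ (by positivity)) hlt, Nat.and_two_pow_sub_one_eq_mod,
      Nat.mod_mod_of_dvd _ (pow_dvd_pow 2 (by omega))]
  rw [key, key]
  have h2 : v / 2 ^ w / 2 ^ (2 * w) = v / 2 ^ (2 * w) / 2 ^ w := by
    rw [Nat.div_div_eq_div_mul, Nat.div_div_eq_div_mul, mul_comm]
  rw [h2]
  ring

theorem fold_ds {w : ℕ} (hw : 0 < w) (L v : ℕ) :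
    ds (2 * w) L (fold w L v) = ds w (2 * L) v ∧ fold w L v < 2 ^ (2 * w * L) := by
  induction L generalizing v with
  | zero =>
    have : fold w 0 v = 0 := by
      have h1 : msk w 0 = 0 := by
        have : msk w 0 = (2 ^ w - 1) * pat (2 * w) 0 := rfl
        rw [this, pat_zero, mul_zero]
      have h2 : fold w 0 v = (v &&& msk w 0) + ((v >>> w) &&& msk w 0) := rfl
      rw [h2, h1, Nat.and_zero, Nat.and_zero]
    rw [this]
    simp [ds]
  | succ L ih =>
    obtain ⟨h1, h2⟩ := ih (v / 2 ^ (2 * w))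
    set r := v % 2 ^ w + v / 2 ^ w % 2 ^ w with hr
    have hB : 2 ≤ 2 ^ w := by
      calc 2 = 2 ^ 1 := by norm_num
        _ ≤ 2 ^ w := Nat.pow_le_pow_right (by norm_num) hw
    have hrlt : r < 2 ^ (2 * w) := by
      have a1 : v % 2 ^ w < 2 ^ w := Nat.mod_lt _ (by positivity)
      have a2 : v / 2 ^ w % 2 ^ w < 2 ^ w := Nat.mod_lt _ (by positivity)
      have a3 : 2 ^ (2 * w) = 2 ^ w * 2 ^ w := by rw [two_mul, pow_add]
      rw [a3]
      nlinarith
    rw [fold_succ hw, ← hr]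
    constructor
    · rw [ds_succ']
      have e1 : (2 ^ (2 * w) * fold w L (v / 2 ^ (2 * w)) + r) % 2 ^ (2 * w) = r := by
        rw [Nat.mul_add_mod, Nat.mod_eq_of_lt hrlt]
      have e2 : (2 ^ (2 * w) * fold w L (v / 2 ^ (2 * w)) + r) / 2 ^ (2 * w) =
          fold w L (v / 2 ^ (2 * w)) := by
        rw [Nat.mul_add_div (by positivity), Nat.div_eq_of_lt hrlt, add_zero]
      rw [e1, e2, h1, show 2 * (L + 1) = 2 * L + 1 + 1 by ring, ds_succ', ds_succ',
        Nat.div_div_eq_div_mul, ← pow_add, ← two_mul, hr]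
      ring
    · have e : 2 ^ (2 * w * (L + 1)) = 2 ^ (2 * w) * 2 ^ (2 * w * L) := by
        rw [← pow_add]; congr 1; ring
      rw [e]
      calc 2 ^ (2 * w) * fold w L (v / 2 ^ (2 * w)) + r
          < 2 ^ (2 * w) * fold w L (v / 2 ^ (2 * w)) + 2 ^ (2 * w) := by omega
        _ = 2 ^ (2 * w) * (fold w L (v / 2 ^ (2 * w)) + 1) := by ring
        _ ≤ _ := Nat.mul_le_mul_left _ h2

theorem ds_modEq (w n v : ℕ) (hv : v < 2 ^ (w * n)) : v ≡ ds w n v [MOD 2 ^ w - 1] := by
  induction n generalizing v with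
  | zero =>
    have : v = 0 := by simpa using hv
    rw [this]; simp [ds]; rfl
  | succ n ih =>
    rw [ds_succ']
    have h1 : v / 2 ^ w < 2 ^ (w * n) := by
      rw [Nat.div_lt_iff_lt_mul (by positivity), ← pow_add]
      have : w * n + w = w * (n + 1) := by ring
      rw [this]; exact hv
    have h2 := ih _ h1
    have h3 : 2 ^ w ≡ 1 [MOD 2 ^ w - 1] :=
      ((Nat.modEq_iff_dvd' (Nat.one_le_two_pow (n := w))).2 dvd_rfl).symm
    calc v = 2 ^ w * (v / 2 ^ w) + v % 2 ^ w := (Nat.div_add_mod _ _).symm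
      _ ≡ 1 * ds w n (v / 2 ^ w) + v % 2 ^ w [MOD 2 ^ w - 1] := (h3.mul h2).add_right _
      _ = _ := by ring

theorem ds_one (n v : ℕ) : ds 1 n v = ((range n).filter (fun j => v.testBit j = true)).card := by
  unfold ds
  rw [card_filter]
  apply sum_congr rfl
  intro i _
  rw [one_mul, pow_one, Nat.testBit_eq_decide_div_mod_eq]
  rcases Nat.mod_two_eq_zero_or_one (v / 2 ^ i) with h | h <;> simp [h]

/-- population count of a number below `2 ^ (16 n)` with less than `65535` bits -/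
def pc (n v : ℕ) : ℕ :=
  Nat.mod (fold 8 n (fold 4 (Nat.mul 2 n) (fold 2 (Nat.mul 4 n) (fold 1 (Nat.mul 8 n) v)))) 65535

theorem pc_eq (n v : ℕ) (hn : 16 * n < 65535) :
    pc n v = ((range (16 * n)).filter (fun j => v.testBit j = true)).card := by
  have h1 := fold_ds (w := 1) one_pos (8 * n) v
  have h2 := fold_ds (w := 2) two_pos (4 * n) (fold 1 (8 * n) v)
  have h3 := fold_ds (w := 4) (by norm_num) (2 * n) (fold 2 (4 * n) (fold 1 (8 * n) v))
  have h4 := fold_ds (w := 8) (by norm_num) n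
    (fold 4 (2 * n) (fold 2 (4 * n) (fold 1 (8 * n) v)))
  have hds : ds 16 n (fold 8 n (fold 4 (2 * n) (fold 2 (4 * n) (fold 1 (8 * n) v)))) =
      ((range (16 * n)).filter (fun j => v.testBit j = true)).card := by
    rw [show (16 : ℕ) = 2 * 8 by norm_num, h4.1, show (8 : ℕ) = 2 * 4 by norm_num, h3.1,
      show 2 * (2 * n) = 4 * n by ring, show (4 : ℕ) = 2 * 2 by norm_num, h2.1]
    rw [show 2 * (2 * 2 * n) = 2 * 4 * n by ring]
    have h5 := h1.1
    rw [show 8 * n = 2 * 4 * n by ring, mul_one] at h5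
    rw [h5, ds_one]
    congr 2
    ring_nf
  have hlt := h4.2
  have hm := ds_modEq 16 n _ (by rw [show (16 : ℕ) = 2 * 8 by norm_num]; exact hlt)
  rw [hds] at hm
  have hcard : ((range (16 * n)).filter (fun j => v.testBit j = true)).card ≤ 16 * n := by
    calc _ ≤ (range (16 * n)).card := card_filter_le _ _
      _ = _ := card_range _
  have e : pc n v = (fold 8 n (fold 4 (2 * n) (fold 2 (4 * n) (fold 1 (8 * n) v)))) % 65535 := rfl
  rw [e]
  have h6 : (2 ^ 16 - 1 : ℕ) = 65535 := by norm_num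
  rw [h6] at hm
  rw [hm, Nat.mod_eq_of_lt (by omega)]

/-- the complement of the flags -/
def unf (a L : ℕ) (ps : List ℕ) : ℕ :=
  Nat.xor (Nat.mod (flag a L ps) (Nat.pow 2 L)) (Nat.sub (Nat.pow 2 L) 1)

theorem testBit_unf (a L : ℕ) (ps : List ℕ) (hps : ∀ p ∈ ps, 0 < p) (j : ℕ) :
    (unf a L ps).testBit j = true ↔ j < L ∧ ∀ p ∈ ps, ¬ p ∣ a + j := by
  have e : unf a L ps = (flag a L ps % 2 ^ L) ^^^ (2 ^ L - 1) := rfl
  rw [e, Nat.testBit_xor, Nat.testBit_mod_two_pow, Nat.testBit_two_pow_sub_one]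
  rcases Nat.lt_or_ge j L with h | h
  · have h1 := testBit_flag a L ps hps j h
    simp only [h, decide_true, Bool.true_and, true_and]
    cases hb : (flag a L ps).testBit j with
    | true =>
      rw [hb] at h1
      obtain ⟨p, hp, hd⟩ := h1.1 rfl
      simp only [Bool.xor_self, Bool.false_eq_true, false_iff, not_forall, not_not]
      exact ⟨p, hp, hd⟩
    | false =>
      rw [hb] at h1
      simp only [Bool.false_xor, true_iff]
      intro p hp hd
      exact absurd (h1.2 ⟨p, hp, hd⟩) (by simp)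
  · have h1 : ¬ j < L := by omega
    simp [h1]

/-- number of integers in `[a, a + L)` without divisor in the list -/
def U (ps : List ℕ) (a L : ℕ) : ℕ := ((range L).filter (fun j => ∀ p ∈ ps, ¬ p ∣ a + j)).card

theorem U_add (ps : List ℕ) (a L M : ℕ) : U ps a (L + M) = U ps a L + U ps (a + L) M := by
  unfold U
  rw [← card_map (addLeftEmbedding L) (s := (range M).filter _), ← card_union_of_disjoint]
  · congr 1
    ext j
    simp only [mem_filter, mem_range, mem_union, mem_map, addLeftEmbedding_apply]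
    constructor
    · rintro ⟨h1, h2⟩
      rcases Nat.lt_or_ge j L with h | h
      · left; exact ⟨h, h2⟩
      · right
        refine ⟨j - L, ⟨by omega, ?_⟩, by omega⟩
        intro p hp
        rw [show a + L + (j - L) = a + j by omega]
        exact h2 p hp
    · rintro (⟨h1, h2⟩ | ⟨i, ⟨h1, h2⟩, rfl⟩)
      · exact ⟨by omega, h2⟩
      · refine ⟨by omega, fun p hp => ?_⟩
        rw [← add_assoc]; exact h2 p hp
  · rw [disjoint_left]
    intro j h1 h2
    simp only [mem_filter, mem_range, mem_map, addLeftEmbedding_apply] at h1 h2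
    obtain ⟨i, _, rfl⟩ := h2
    omega

/-- extraction of a chunk of `c` bits at position `i` -/
theorem pc_chunk (a L : ℕ) (ps : List ℕ) (hps : ∀ p ∈ ps, 0 < p) (n c i : ℕ)
    (hn : 16 * n < 65535) (hc : c ≤ 16 * n) (hL : i + c ≤ L) :
    pc n (unf a L ps / 2 ^ i % 2 ^ c) = U ps (a + i) c := by
  rw [pc_eq n _ hn]
  unfold U
  congr 1
  ext j
  simp only [mem_filter, mem_range]
  rw [Nat.testBit_mod_two_pow, Nat.testBit_div_two_pow, Bool.and_eq_true, decide_eq_true_iff,
    testBit_unf a L ps hps]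
  constructor
  · rintro ⟨h1, h2, h3, h4⟩
    refine ⟨h2, fun p hp => ?_⟩
    rw [show a + i + j = a + (j + i) by ring]; exact h4 p hp
  · rintro ⟨h1, h2⟩
    refine ⟨by omega, h1, by omega, fun p hp => ?_⟩
    rw [show a + (j + i) = a + i + j by ring]; exact h2 p hp

end Pool.Agent.Q258.KSieve
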