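import Mathlib
import Pool.Agent.Q258.KSieve

set_option autoImplicit false

/-! The prime counting function from the kernel sieve. -/

namespace Pool.Agent.Q258.KSieve

open Finset

theorem pi_of_U (ps : List ℕ) (R : ℕ) (hprime : ∀ p ∈ ps, p.Prime) (hnd : ps.Nodup)
    (hcomp : ∀ q : ℕ, q.Prime → q ≤ R → q ∈ ps) (hR : ∀ p ∈ ps, p ≤ R) (x : ℕ) (hx : R ≤ x)
    (hx2 : x < (R + 1) ^ 2) (hx1 : 1 ≤ x) :
    Nat.primeCounting x + 1 = U ps 1 x + ps.length := by
  classical
  have h1 : U ps 1 x = ((Icc 1 x).filter (fun m => ∀ p ∈ ps, ¬ p ∣ m)).card := by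
    unfold U
    rw [← card_map (addLeftEmbedding 1)]
    congr 1
    ext m
    simp only [mem_map, mem_filter, mem_range, addLeftEmbedding_apply, mem_Icc]
    constructor
    · rintro ⟨j, ⟨h1, h2⟩, rfl⟩
      exact ⟨by omega, h2⟩
    · rintro ⟨⟨h1, h2⟩, h3⟩
      exact ⟨m - 1, ⟨by omega, fun p hp => by rw [show 1 + (m - 1) = m by omega]; exact h3 p hp⟩,
        by omega⟩
  have h2 : Nat.primeCounting x = ((Icc 1 x).filter (fun m => m.Prime)).card := by
    rw [Nat.primeCounting, Nat.primeCounting', Nat.count_eq_card_filter_range]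
    congr 1
    ext p
    simp only [mem_filter, mem_range, mem_Icc]
    constructor
    · rintro ⟨h1, h2⟩; exact ⟨⟨h2.one_lt.le, by omega⟩, h2⟩
    · rintro ⟨⟨h1, h2⟩, h3⟩; exact ⟨by omega, h3⟩
  have h3 : insert 1 ((Icc 1 x).filter (fun m => m.Prime)) =
      ((Icc 1 x).filter (fun m => ∀ p ∈ ps, ¬ p ∣ m)) ∪ ps.toFinset := by
    ext m
    simp only [mem_insert, mem_filter, mem_Icc, mem_union, List.mem_toFinset]
    constructor
    · rintro (rfl | ⟨⟨h4, h5⟩, h6⟩)
      · left
        refine ⟨⟨le_rfl, hx1⟩, fun p hp hd => ?_⟩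
        have := (hprime p hp).one_lt
        have := Nat.le_of_dvd one_pos hd
        omega
      · by_cases h7 : m ∈ ps
        · right; exact h7
        · left
          refine ⟨⟨h4, h5⟩, fun p hp hd => ?_⟩
          have := (Nat.prime_dvd_prime_iff_eq (hprime p hp) h6).1 hd
          exact h7 (this ▸ hp)
    · rintro (⟨⟨h4, h5⟩, h6⟩ | h4)
      · by_cases h7 : m = 1
        · left; exact h7
        · right
          refine ⟨⟨h4, h5⟩, ?_⟩
          by_contra h8
          have h9 : (Nat.minFac m).Prime := Nat.minFac_prime h7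
          have h10 : Nat.minFac m ^ 2 ≤ m := Nat.minFac_sq_le_self (by omega) h8
          have h11 : Nat.minFac m ≤ R := by
            by_contra h12
            have : (R + 1) ^ 2 ≤ Nat.minFac m ^ 2 := Nat.pow_le_pow_left (by omega) 2
            omega
          exact h6 _ (hcomp _ h9 h11) (Nat.minFac_dvd m)
      · right
        have := hR m h4
        exact ⟨⟨(hprime m h4).one_lt.le, by omega⟩, hprime m h4⟩
  have h4 : Disjoint ((Icc 1 x).filter (fun m => ∀ p ∈ ps, ¬ p ∣ m)) ps.toFinset := by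
    rw [disjoint_left]
    intro m hm hm2
    rw [mem_filter] at hm
    rw [List.mem_toFinset] at hm2
    exact hm.2 m hm2 dvd_rfl
  have h5 : (1 : ℕ) ∉ (Icc 1 x).filter (fun m => m.Prime) := by
    rw [mem_filter]
    rintro ⟨_, h⟩
    exact Nat.not_prime_one h
  have h6 := congrArg card h3
  rw [card_insert_of_notMem h5, card_union_of_disjoint h4, List.toFinset_card_of_nodup hnd] at h6
  rw [h1, h2]
  exact h6

/-- completeness of a list of primes by trial division -/
def chkList (ps ds : List ℕ) (R : ℕ) : Bool :=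
  (List.range (R + 1)).all (fun q => Nat.ble q 1 || ps.contains q ||
    ds.any (fun d => Nat.beq (q % d) 0 && Nat.blt d q && Nat.blt 1 d))

theorem chkList_spec (ps ds : List ℕ) (R : ℕ) (h : chkList ps ds R = true) :
    ∀ q : ℕ, q.Prime → q ≤ R → q ∈ ps := by
  intro q hq hqR
  unfold chkList at h
  rw [List.all_eq_true] at h
  have h1 := h q (List.mem_range.2 (by omega))
  rw [Bool.or_eq_true, Bool.or_eq_true] at h1
  rcases h1 with (h1 | h1) | h1
  · have := Nat.le_of_ble_eq_true h1
    have := hq.one_lt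
    omega
  · simpa using h1
  · rw [List.any_eq_true] at h1
    obtain ⟨d, _, h2⟩ := h1
    rw [Bool.and_eq_true, Bool.and_eq_true] at h2
    obtain ⟨⟨h3, h4⟩, h5⟩ := h2
    have h3' : q % d = 0 := Nat.eq_of_beq_eq_true h3
    have h4' : d < q := by simpa [Nat.blt] using h4
    have h5' : 2 ≤ d := by simpa [Nat.blt] using h5
    have h6 := (Nat.dvd_prime hq).1 (Nat.dvd_of_mod_eq_zero h3')
    omega

end Pool.Agent.Q258.KSieve
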