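import Mathlib
import Pool.Agent.Q258.KTri

set_option autoImplicit false

/-! Scan of the values of `π` at multiples of `1471` for triangular numbers: kernel computations. -/

namespace Pool.Agent.Q258.KTri

open Pool.Agent.Q258.KSieve

theorem b0 : scan 92 1471 64 (unf 1 94144 ps) 431 0 9082 134 = true := by decide +kernel
theorem b1 : scan 92 1471 64 (unf 94145 94144 ps) 9082 134 17019 183 = true := by decide +kernel
theorem b2 : scan 92 1471 64 (unf 188289 94144 ps) 17019 183 24639 221 = true := by decide +kernel
theorem b3 : scan 92 1471 64 (unf 282433 94144 ps) 24639 221 32029 252 = true := by decide +kernel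
theorem b4 : scan 92 1471 64 (unf 376577 94144 ps) 32029 252 39288 279 = true := by decide +kernel
theorem b5 : scan 92 1471 64 (unf 470721 94144 ps) 39288 279 46433 304 = true := by decide +kernel
theorem b6 : scan 92 1471 64 (unf 564865 94144 ps) 46433 304 53491 326 = true := by decide +kernel
theorem b7 : scan 92 1471 64 (unf 659009 94144 ps) 53491 326 60475 347 = true := by decide +kernel
theorem b8 : scan 92 1471 64 (unf 753153 94144 ps) 60475 347 67424 366 = true := by decide +kernel
theorem b9 : scan 92 1471 64 (unf 847297 94144 ps) 67424 366 74293 384 = true := by decide +kernel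
theorem b10 : scan 92 1471 64 (unf 941441 94144 ps) 74293 384 81102 402 = true := by decide +kernel
theorem b11 : scan 92 1471 64 (unf 1035585 94144 ps) 81102 402 87864 418 = true := by decide +kernel
theorem b12 : scan 92 1471 64 (unf 1129729 94144 ps) 87864 418 94615 434 = true := by decide +kernel
theorem b13 : scan 92 1471 64 (unf 1223873 94144 ps) 94615 434 101297 449 = true := by decide +kernel
theorem b14 : scan 92 1471 64 (unf 1318017 94144 ps) 101297 449 107960 464 = true := by decide +kernel
theorem b15 : scan 92 1471 64 (unf 1412161 94144 ps) 107960 464 114625 478 = true := by decide +kernel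
theorem b16 : scan 92 1471 64 (unf 1506305 94144 ps) 114625 478 121162 491 = true := by decide +kernel
theorem b17 : scan 92 1471 64 (unf 1600449 94144 ps) 121162 491 127754 504 = true := by decide +kernel
theorem b18 : scan 92 1471 64 (unf 1694593 94144 ps) 127754 504 134282 517 = true := by decide +kernel
theorem b19 : scan 92 1471 64 (unf 1788737 94144 ps) 134282 517 140843 530 = true := by decide +kernel
theorem b20 : scan 92 1471 64 (unf 1882881 94144 ps) 140843 530 147327 542 = true := by decide +kernel
theorem b21 : scan 92 1471 64 (unf 1977025 94144 ps) 147327 542 153846 554 = true := by decide +kernel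
theorem b22 : scan 92 1471 64 (unf 2071169 94144 ps) 153846 554 160316 565 = true := by decide +kernel
theorem b23 : scan 92 1471 64 (unf 2165313 94144 ps) 160316 565 166737 576 = true := by decide +kernel
theorem b24 : scan 92 1471 64 (unf 2259457 94144 ps) 166737 576 173114 587 = true := by decide +kernel
theorem b25 : scan 92 1471 64 (unf 2353601 94144 ps) 173114 587 179521 598 = true := by decide +kernel
theorem b26 : scan 92 1471 64 (unf 2447745 94144 ps) 179521 598 185913 609 = true := by decide +kernel
theorem b27 : scan 92 1471 64 (unf 2541889 94144 ps) 185913 609 192306 619 = true := by decide +kernel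
theorem b28 : scan 92 1471 64 (unf 2636033 94144 ps) 192306 619 198673 629 = true := by decide +kernel
theorem b29 : scan 92 1471 64 (unf 2730177 94144 ps) 198673 629 205050 639 = true := by decide +kernel
theorem b30 : scan 92 1471 64 (unf 2824321 94144 ps) 205050 639 211345 649 = true := by decide +kernel
theorem b31 : scan 92 1471 64 (unf 2918465 94144 ps) 211345 649 217676 659 = true := by decide +kernel
theorem b32 : scan 92 1471 64 (unf 3012609 94144 ps) 217676 659 223943 668 = true := by decide +kernel
theorem b33 : scan 92 1471 64 (unf 3106753 94144 ps) 223943 668 230278 678 = true := by decide +kernel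
theorem b34 : scan 92 1471 64 (unf 3200897 94144 ps) 230278 678 236585 687 = true := by decide +kernel
theorem b35 : scan 92 1471 64 (unf 3295041 94144 ps) 236585 687 242824 696 = true := by decide +kernel
theorem b36 : scan 92 1471 64 (unf 3389185 94144 ps) 242824 696 249053 705 = true := by decide +kernel
theorem b37 : scan 92 1471 64 (unf 3483329 94144 ps) 249053 705 255231 713 = true := by decide +kernel
theorem b38 : scan 92 1471 64 (unf 3577473 94144 ps) 255231 713 261488 722 = true := by decide +kernel
theorem b39 : scan 92 1471 64 (unf 3671617 94144 ps) 261488 722 267738 731 = true := by decide +kernel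
theorem b40 : scan 92 1471 64 (unf 3765761 94144 ps) 267738 731 273966 739 = true := by decide +kernel
theorem b41 : scan 92 1471 64 (unf 3859905 94144 ps) 273966 739 280177 748 = true := by decide +kernel
theorem b42 : scan 92 1471 64 (unf 3954049 94144 ps) 280177 748 286368 756 = true := by decide +kernel
theorem b43 : scan 92 1471 64 (unf 4048193 94144 ps) 286368 756 292503 764 = true := by decide +kernel
theorem b44 : scan 92 1471 64 (unf 4142337 94144 ps) 292503 764 298707 772 = true := by decide +kernel
theorem b45 : scan 92 1471 64 (unf 4236481 94144 ps) 298707 772 304832 780 = true := by decide +kernel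
theorem b46 : scan 92 1471 64 (unf 4330625 94144 ps) 304832 780 310977 788 = true := by decide +kernel
theorem b47 : scan 92 1471 64 (unf 4424769 94144 ps) 310977 788 317169 795 = true := by decide +kernel
theorem b48 : scan 92 1471 64 (unf 4518913 94144 ps) 317169 795 323313 803 = true := by decide +kernel
theorem b49 : scan 92 1471 64 (unf 4613057 94144 ps) 323313 803 329428 811 = true := by decide +kernel
theorem b50 : scan 92 1471 64 (unf 4707201 94144 ps) 329428 811 335528 818 = true := by decide +kernel
theorem b51 : scan 92 1471 64 (unf 4801345 94144 ps) 335528 818 341686 826 = true := by decide +kernel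
theorem b52 : scan 92 1471 64 (unf 4895489 94144 ps) 341686 826 347846 833 = true := by decide +kernel
theorem b53 : scan 92 1471 64 (unf 4989633 94144 ps) 347846 833 353920 840 = true := by decide +kernel
theorem b54 : scan 92 1471 64 (unf 5083777 94144 ps) 353920 840 359988 848 = true := by decide +kernel
theorem b55 : scan 92 1471 64 (unf 5177921 94144 ps) 359988 848 366112 855 = true := by decide +kernel
theorem b56 : scan 92 1471 64 (unf 5272065 94144 ps) 366112 855 372170 862 = true := by decide +kernel
theorem b57 : scan 92 1471 64 (unf 5366209 94144 ps) 372170 862 378256 869 = true := by decide +kernel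
theorem b58 : scan 92 1471 64 (unf 5460353 94144 ps) 378256 869 384269 876 = true := by decide +kernel
theorem b59 : scan 92 1471 64 (unf 5554497 94144 ps) 384269 876 390293 883 = true := by decide +kernel
theorem b60 : scan 92 1471 64 (unf 5648641 94144 ps) 390293 883 396359 889 = true := by decide +kernel
theorem b61 : scan 92 1471 64 (unf 5742785 94144 ps) 396359 889 402352 896 = true := by decide +kernel
theorem b62 : scan 92 1471 64 (unf 5836929 94144 ps) 402352 896 408461 903 = true := by decide +kernel
theorem b63 : scan 92 1471 64 (unf 5931073 94144 ps) 408461 903 414493 909 = true := by decide +kernel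
theorem b64 : scan 92 1471 64 (unf 6025217 94144 ps) 414493 909 420497 916 = true := by decide +kernel
theorem b65 : scan 92 1471 64 (unf 6119361 94144 ps) 420497 916 426506 923 = true := by decide +kernel
theorem b66 : scan 92 1471 64 (unf 6213505 94144 ps) 426506 923 432578 929 = true := by decide +kernel
theorem b67 : scan 92 1471 64 (unf 6307649 94144 ps) 432578 929 438515 935 = true := by decide +kernel
theorem b68 : scan 92 1471 64 (unf 6401793 94144 ps) 438515 935 444492 942 = true := by decide +kernel
theorem b69 : scan 92 1471 64 (unf 6495937 94144 ps) 444492 942 450533 948 = true := by decide +kernel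
theorem b70 : scan 92 1471 64 (unf 6590081 94144 ps) 450533 948 456491 955 = true := by decide +kernel
theorem b71 : scan 92 1471 64 (unf 6684225 94144 ps) 456491 955 462516 961 = true := by decide +kernel
theorem b72 : scan 92 1471 64 (unf 6778369 94144 ps) 462516 961 468521 967 = true := by decide +kernel
theorem b73 : scan 92 1471 64 (unf 6872513 94144 ps) 468521 967 474543 973 = true := by decide +kernel
theorem b74 : scan 92 1471 64 (unf 6966657 94144 ps) 474543 973 480542 979 = true := by decide +kernel
theorem b75 : scan 92 1471 64 (unf 7060801 94144 ps) 480542 979 486477 985 = true := by decide +kernel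
theorem b76 : scan 92 1471 64 (unf 7154945 94144 ps) 486477 985 492429 991 = true := by decide +kernel
theorem b77 : scan 92 1471 64 (unf 7249089 94144 ps) 492429 991 498381 997 = true := by decide +kernel
theorem b78 : scan 92 1471 64 (unf 7343233 94144 ps) 498381 997 504324 1003 = true := by decide +kernel
theorem b79 : scan 92 1471 64 (unf 7437377 94144 ps) 504324 1003 510232 1009 = true := by decide +kernel
theorem b80 : scan 92 1471 64 (unf 7531521 94144 ps) 510232 1009 516197 1015 = true := by decide +kernel
theorem b81 : scan 92 1471 64 (unf 7625665 94144 ps) 516197 1015 522154 1021 = true := by decide +kernel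
theorem b82 : scan 92 1471 64 (unf 7719809 94144 ps) 522154 1021 528060 1027 = true := by decide +kernel
theorem b83 : scan 92 1471 64 (unf 7813953 94144 ps) 528060 1027 534004 1032 = true := by decide +kernel
theorem b84 : scan 92 1471 64 (unf 7908097 94144 ps) 534004 1032 539921 1038 = true := by decide +kernel
theorem b85 : scan 92 1471 64 (unf 8002241 94144 ps) 539921 1038 545810 1044 = true := by decide +kernel
theorem b86 : scan 92 1471 64 (unf 8096385 94144 ps) 545810 1044 551731 1049 = true := by decide +kernel
theorem b87 : scan 92 1471 64 (unf 8190529 94144 ps) 551731 1049 557660 1055 = true := by decide +kernel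
theorem b88 : scan 92 1471 64 (unf 8284673 94144 ps) 557660 1055 563552 1061 = true := by decide +kernel
theorem b89 : scan 92 1471 64 (unf 8378817 94144 ps) 563552 1061 569400 1066 = true := by decide +kernel
theorem b90 : scan 92 1471 64 (unf 8472961 94144 ps) 569400 1066 575346 1072 = true := by decide +kernel
theorem b91 : scan 92 1471 64 (unf 8567105 94144 ps) 575346 1072 581303 1077 = true := by decide +kernel
theorem b92 : scan 92 1471 64 (unf 8661249 94144 ps) 581303 1077 587184 1083 = true := by decide +kernel
theorem b93 : scan 92 1471 64 (unf 8755393 94144 ps) 587184 1083 593086 1088 = true := by decide +kernel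
theorem b94 : scan 92 1471 64 (unf 8849537 94144 ps) 593086 1088 598964 1093 = true := by decide +kernel
theorem b95 : scan 92 1471 64 (unf 8943681 94144 ps) 598964 1093 604791 1099 = true := by decide +kernel
theorem b96 : scan 92 1471 7 (unf 9037825 10297 ps) 604791 1099 605449 1099 = true := by decide +kernel

end Pool.Agent.Q258.KTri
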