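import Mathlib
import Pool.Agent.Q258.KTri

set_option autoImplicit false

/-! Scan of the values of `π` at multiples of `1471` for triangular numbers: correctness. -/

namespace Pool.Agent.Q258.KTri

open Finset Pool.Agent.Q258.KSieve

theorem not_tri {t c : ℕ} (h1 : t * (t + 1) + 1 ≤ 2 * c) (h2 : 2 * c + 1 ≤ (t + 1) * (t + 2))
    (m : ℕ) : c ≠ m * (m + 1) / 2 := by
  intro h
  have h3 : 2 * (m * (m + 1) / 2) = m * (m + 1) := Nat.mul_div_cancel' (Nat.even_mul_succ_self m).two_dvd
  rw [← h] at h3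
  rcases Nat.lt_or_ge t m with h4 | h4
  · have : (t + 1) * (t + 2) ≤ m * (m + 1) := Nat.mul_le_mul (by omega) (by omega)
    omega
  · have : m * (m + 1) ≤ t * (t + 1) := Nat.mul_le_mul h4 (by omega)
    omega

theorem scan_spec (n c : ℕ) (m : ℕ) : ∀ v cnt t cf tf : ℕ, scan n c m v cnt t cf tf = true →
    (∀ k, 1 ≤ k → k ≤ m → ∀ j : ℕ,
      cnt + ∑ i ∈ range k, pc n (v / 2 ^ (c * i) % 2 ^ c) ≠ j * (j + 1) / 2) ∧
    cf = cnt + ∑ i ∈ range m, pc n (v / 2 ^ (c * i) % 2 ^ c) := by
  induction m with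
  | zero =>
    intro v cnt t cf tf h
    have e : scan n c 0 v cnt t cf tf = cond (Nat.beq cnt cf) (Nat.beq t tf) false := rfl
    rw [e] at h
    constructor
    · intro k h1 h2; omega
    · cases hb : Nat.beq cnt cf with
      | true => simp [Nat.eq_of_beq_eq_true hb]
      | false => rw [hb] at h; simp at h
  | succ m ih =>
    intro v cnt t cf tf h
    set cnt' := cnt + pc n (v % 2 ^ c) with hcnt
    set t' := adv 40 t cnt' with ht
    have e : scan n c (m + 1) v cnt t cf tf =
      cond (Nat.ble (t' * (t' + 1) + 1) (2 * cnt'))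
          (cond (Nat.ble (2 * cnt' + 1) ((t' + 1) * (t' + 1 + 1)))
            (scan n c m (v >>> c) cnt' t' cf tf) false) false := rfl
    rw [e] at h
    cases h1 : Nat.ble (t' * (t' + 1) + 1) (2 * cnt') with
    | false => rw [h1] at h; simp at h
    | true =>
      rw [h1, cond_true] at h
      cases h2 : Nat.ble (2 * cnt' + 1) ((t' + 1) * (t' + 1 + 1)) with
      | false => rw [h2] at h; simp at h
      | true =>
        rw [h2, cond_true] at h
        have h3 := Nat.le_of_ble_eq_true h1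
        have h4 := Nat.le_of_ble_eq_true h2
        obtain ⟨h5, h6⟩ := ih _ _ _ _ _ h
        have hsum : ∀ k, ∑ i ∈ range (k + 1), pc n (v / 2 ^ (c * i) % 2 ^ c) =
            pc n (v % 2 ^ c) + ∑ i ∈ range k, pc n ((v >>> c) / 2 ^ (c * i) % 2 ^ c) := by
          intro k
          rw [sum_range_succ', add_comm]
          congr 1
          · simp
          · apply sum_congr rfl
            intro i _
            rw [Nat.shiftRight_eq_div_pow, Nat.div_div_eq_div_mul, ← pow_add]
            congr 4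
            ring
        constructor
        · intro k hk1 hk2 j
          obtain ⟨k', rfl⟩ : ∃ k', k = k' + 1 := ⟨k - 1, by omega⟩
          rw [hsum, ← add_assoc]
          rcases Nat.eq_zero_or_pos k' with rfl | hk'
          · rw [sum_range_zero, add_zero]
            exact not_tri h3 h4 j
          · exact h5 k' hk' (by omega) j
        · rw [h6, hsum, hcnt]
          ring

/-- one block: `m` chunks of `1471` integers starting at `a` -/
theorem block (a m cnt t cf tf : ℕ) (hpos : ∀ p ∈ ps, 0 < p)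
    (h : scan 92 1471 m (unf a (1471 * m) ps) cnt t cf tf = true) :
    (∀ k, 1 ≤ k → k ≤ m → ∀ j : ℕ, cnt + U ps a (1471 * k) ≠ j * (j + 1) / 2) ∧
    cf = cnt + U ps a (1471 * m) := by
  have hU : ∀ k, k ≤ m → ∑ i ∈ range k, pc 92 (unf a (1471 * m) ps / 2 ^ (1471 * i) % 2 ^ 1471) =
      U ps a (1471 * k) := by
    intro k
    induction k with
    | zero => intro _; simp [U]
    | succ k ih =>
      intro hk
      rw [sum_range_succ, ih (by omega), pc_chunk a (1471 * m) ps hpos 92 1471 (1471 * k)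
        (by norm_num) (by norm_num) (by omega), mul_add, mul_one, U_add]
  obtain ⟨h1, h2⟩ := scan_spec 92 1471 m _ cnt t cf tf h
  constructor
  · intro k hk1 hk2 j
    rw [← hU k hk2]
    exact h1 k hk1 hk2 j
  · rw [← hU m le_rfl]
    exact h2

/-- chaining of blocks -/
theorem step {x m cnt cf cnt0 t tf : ℕ} (hpos : ∀ p ∈ ps, 0 < p)
    (hprev : (∀ k, 1 ≤ k → k ≤ x → ∀ j : ℕ, cnt0 + U ps 1 (1471 * k) ≠ j * (j + 1) / 2) ∧
      cnt = cnt0 + U ps 1 (1471 * x))
    (h : scan 92 1471 m (unf (1 + 1471 * x) (1471 * m) ps) cnt t cf tf = true) :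
    (∀ k, 1 ≤ k → k ≤ x + m → ∀ j : ℕ, cnt0 + U ps 1 (1471 * k) ≠ j * (j + 1) / 2) ∧
      cf = cnt0 + U ps 1 (1471 * (x + m)) := by
  obtain ⟨h1, h2⟩ := block (1 + 1471 * x) m cnt t cf tf hpos h
  have hadd : ∀ k, cnt + U ps (1 + 1471 * x) (1471 * k) = cnt0 + U ps 1 (1471 * (x + k)) := by
    intro k
    rw [mul_add, U_add, hprev.2, add_assoc]
  constructor
  · intro k hk1 hk2 j
    rcases Nat.lt_or_ge x k with h3 | h3
    · obtain ⟨i, rfl⟩ : ∃ i, k = x + i := ⟨k - x, by omega⟩
      rw [← hadd]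
      exact h1 i (by omega) (by omega) j
    · exact hprev.1 k hk1 h3 j
  · rw [← hadd]; exact h2

end Pool.Agent.Q258.KTri
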