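import Mathlib
import Pool.Agent.Q258.KTriMain
import Pool.Agent.Q258.KTriData

set_option autoImplicit false

/-! Scan of the values of `π` at multiples of `1471` for triangular numbers: assembly. -/

namespace Pool.Agent.Q258.KTri

open Finset Pool.Agent.Q258.KSieve

theorem prime_of_chk (R : ℕ) (p : ℕ) (h1 : 1 < p) (h2 : p < (R + 2) ^ 2)
    (h : (List.range R).all (fun i => !(Nat.beq (p % (i + 2)) 0) || Nat.beq p (i + 2)) = true) :
    p.Prime := by
  by_contra h8
  have h9 : (Nat.minFac p).Prime := Nat.minFac_prime (by omega)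
  have h10 : Nat.minFac p ^ 2 ≤ p := Nat.minFac_sq_le_self (by omega) h8
  have h11 : Nat.minFac p < R + 2 := by
    by_contra h12
    have : (R + 2) ^ 2 ≤ Nat.minFac p ^ 2 := Nat.pow_le_pow_left (by omega) 2
    omega
  rw [List.all_eq_true] at h
  have h2' := h9.two_le
  have h3 := h (Nat.minFac p - 2) (List.mem_range.2 (by omega))
  rw [show Nat.minFac p - 2 + 2 = Nat.minFac p by omega, Bool.or_eq_true] at h3
  rcases h3 with h3 | h3
  · have : p % Nat.minFac p = 0 := Nat.mod_eq_zero_of_dvd (Nat.minFac_dvd p)
    rw [this] at h3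
    simp at h3
  · have : p = Nat.minFac p := Nat.eq_of_beq_eq_true h3
    exact h8 (this ▸ h9)

theorem ps_chk1 : ps.all (fun p => Nat.blt 1 p && Nat.ble p 3011 &&
    (List.range 53).all (fun i => !(Nat.beq (p % (i + 2)) 0) || Nat.beq p (i + 2))) = true := by
  decide +kernel

theorem ps_spec : ∀ p ∈ ps, p.Prime ∧ p ≤ 3011 := by
  intro p hp
  have h := List.all_eq_true.1 ps_chk1 p hp
  rw [Bool.and_eq_true, Bool.and_eq_true] at h
  obtain ⟨⟨h1, h2⟩, h3⟩ := h
  have h2' := Nat.le_of_ble_eq_true h2
  have h1' : 1 < p := Nat.le_of_ble_eq_true h1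
  exact ⟨prime_of_chk 53 p h1' (by norm_num; omega) h3, h2'⟩
/-- `q` has a proper divisor in the list or `q ≤ 1` -/
def anyd (q : ℕ) (ds : List ℕ) : Bool :=
  List.rec (Nat.ble q 1) (fun d _ ih => cond (Nat.beq (Nat.mod q d) 0) (cond (Nat.ble (Nat.succ d) q)
    (cond (Nat.ble 2 d) true ih) ih) ih) ds

/-- walk through the integers from `q`, matching the list -/
def walk (ds : List ℕ) (n : ℕ) : ℕ → List ℕ → Bool :=
  Nat.rec (fun _ _ => true) (fun _ ih q l =>
    List.rec (cond (anyd q ds) (ih (Nat.succ q) []) false)
      (fun p l' _ => cond (Nat.beq p q) (ih (Nat.succ q) l') (cond (anyd q ds) (ih (Nat.succ q) l) false)) l) n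

theorem anyd_spec (q : ℕ) (hq : q.Prime) (ds : List ℕ) : anyd q ds = false := by
  induction ds with
  | nil =>
    have e : anyd q [] = Nat.ble q 1 := rfl
    rw [e]
    have := hq.one_lt
    cases h : Nat.ble q 1 with
    | false => rfl
    | true => have := Nat.le_of_ble_eq_true h; omega
  | cons d ds ih =>
    have e : anyd q (d :: ds) = cond (Nat.beq (q % d) 0) (cond (Nat.ble (Nat.succ d) q)
      (cond (Nat.ble 2 d) true (anyd q ds)) (anyd q ds)) (anyd q ds) := rfl
    rw [e, ih]
    cases h1 : Nat.beq (q % d) 0 with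
    | false => rfl
    | true =>
      cases h2 : Nat.ble (Nat.succ d) q with
      | false => rfl
      | true =>
        cases h3 : Nat.ble 2 d with
        | false => rfl
        | true =>
          exfalso
          have h1' := Nat.eq_of_beq_eq_true h1
          have h2' := Nat.le_of_ble_eq_true h2
          have h3' := Nat.le_of_ble_eq_true h3
          have h6 := (Nat.dvd_prime hq).1 (Nat.dvd_of_mod_eq_zero h1')
          omega

theorem walk_spec (ds : List ℕ) (n : ℕ) : ∀ q l, walk ds n q l = true →
    ∀ r : ℕ, r.Prime → q ≤ r → r < q + n → r ∈ l := by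
  induction n with
  | zero => intro q l _ r _ h1 h2; omega
  | succ n ih =>
    intro q l h r hr h1 h2
    cases l with
    | nil =>
      have e : walk ds (n + 1) q [] = cond (anyd q ds) (walk ds n (q + 1) []) false := rfl
      rw [e] at h
      rcases Nat.eq_or_lt_of_le h1 with h3 | h3
      · rw [h3, anyd_spec r hr ds] at h; simp at h
      · cases h4 : anyd q ds with
        | false => rw [h4] at h; simp at h
        | true =>
          rw [h4, cond_true] at h
          exact ih _ _ h r hr (by omega) (by omega)
    | cons p l =>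
      have e : walk ds (n + 1) q (p :: l) = cond (Nat.beq p q) (walk ds n (q + 1) l)
        (cond (anyd q ds) (walk ds n (q + 1) (p :: l)) false) := rfl
      rw [e] at h
      cases h5 : Nat.beq p q with
      | true =>
        rw [h5, cond_true] at h
        have h5' := Nat.eq_of_beq_eq_true h5
        rcases Nat.eq_or_lt_of_le h1 with h3 | h3
        · simp [h5', h3]
        · exact List.mem_cons_of_mem _ (ih _ _ h r hr (by omega) (by omega))
      | false =>
        rw [h5, cond_false] at h
        rcases Nat.eq_or_lt_of_le h1 with h3 | h3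
        · rw [h3, anyd_spec r hr ds] at h; simp at h
        · cases h4 : anyd q ds with
          | false => rw [h4] at h; simp at h
          | true =>
            rw [h4, cond_true] at h
            exact ih _ _ h r hr (by omega) (by omega)

theorem ps_chk : walk [2, 3, 5, 7, 11, 13, 17, 19, 23, 29, 31, 37, 41, 43, 47, 53] 3012 0 ps = true := by
  decide +kernel

theorem ps_complete : ∀ q : ℕ, q.Prime → q ≤ 3011 → q ∈ ps := fun q hq h =>
  walk_spec _ 3012 0 ps ps_chk q hq (by omega) (by omega)

theorem ps_prime : ∀ p ∈ ps, p.Prime := fun p hp => (ps_spec p hp).1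

theorem ps_pos : ∀ p ∈ ps, 0 < p := fun p hp => (ps_prime p hp).pos

theorem ps_nodup : ps.Nodup := by decide +kernel

theorem ps_le : ∀ p ∈ ps, p ≤ 3011 := fun p hp => (ps_spec p hp).2

/-- the invariant after `x` multiples -/
def Inv (x cnt : ℕ) : Prop :=
  (∀ k, 1 ≤ k → k ≤ x → ∀ j : ℕ, 431 + U ps 1 (1471 * k) ≠ j * (j + 1) / 2) ∧
    cnt = 431 + U ps 1 (1471 * x)

theorem Inv_zero : Inv 0 431 := ⟨fun k h1 h2 => by omega, by simp [U]⟩

theorem Inv_step {x m cnt cf t tf a L y : ℕ} (hprev : Inv x cnt)
    (h : scan 92 1471 m (unf a L ps) cnt t cf tf = true)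
    (ha : a = 1 + 1471 * x) (hL : L = 1471 * m) (hy : y = x + m) : Inv y cf := by
  subst ha hL hy
  exact step ps_pos hprev h

theorem i1 : Inv 64 9082 := Inv_step Inv_zero b0 (by norm_num) (by norm_num) (by norm_num)
theorem i2 : Inv 128 17019 := Inv_step i1 b1 (by norm_num) (by norm_num) (by norm_num)
theorem i3 : Inv 192 24639 := Inv_step i2 b2 (by norm_num) (by norm_num) (by norm_num)
theorem i4 : Inv 256 32029 := Inv_step i3 b3 (by norm_num) (by norm_num) (by norm_num)
theorem i5 : Inv 320 39288 := Inv_step i4 b4 (by norm_num) (by norm_num) (by norm_num)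
theorem i6 : Inv 384 46433 := Inv_step i5 b5 (by norm_num) (by norm_num) (by norm_num)
theorem i7 : Inv 448 53491 := Inv_step i6 b6 (by norm_num) (by norm_num) (by norm_num)
theorem i8 : Inv 512 60475 := Inv_step i7 b7 (by norm_num) (by norm_num) (by norm_num)
theorem i9 : Inv 576 67424 := Inv_step i8 b8 (by norm_num) (by norm_num) (by norm_num)
theorem i10 : Inv 640 74293 := Inv_step i9 b9 (by norm_num) (by norm_num) (by norm_num)
theorem i11 : Inv 704 81102 := Inv_step i10 b10 (by norm_num) (by norm_num) (by norm_num)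
theorem i12 : Inv 768 87864 := Inv_step i11 b11 (by norm_num) (by norm_num) (by norm_num)
theorem i13 : Inv 832 94615 := Inv_step i12 b12 (by norm_num) (by norm_num) (by norm_num)
theorem i14 : Inv 896 101297 := Inv_step i13 b13 (by norm_num) (by norm_num) (by norm_num)
theorem i15 : Inv 960 107960 := Inv_step i14 b14 (by norm_num) (by norm_num) (by norm_num)
theorem i16 : Inv 1024 114625 := Inv_step i15 b15 (by norm_num) (by norm_num) (by norm_num)
theorem i17 : Inv 1088 121162 := Inv_step i16 b16 (by norm_num) (by norm_num) (by norm_num)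
theorem i18 : Inv 1152 127754 := Inv_step i17 b17 (by norm_num) (by norm_num) (by norm_num)
theorem i19 : Inv 1216 134282 := Inv_step i18 b18 (by norm_num) (by norm_num) (by norm_num)
theorem i20 : Inv 1280 140843 := Inv_step i19 b19 (by norm_num) (by norm_num) (by norm_num)
theorem i21 : Inv 1344 147327 := Inv_step i20 b20 (by norm_num) (by norm_num) (by norm_num)
theorem i22 : Inv 1408 153846 := Inv_step i21 b21 (by norm_num) (by norm_num) (by norm_num)
theorem i23 : Inv 1472 160316 := Inv_step i22 b22 (by norm_num) (by norm_num) (by norm_num)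
theorem i24 : Inv 1536 166737 := Inv_step i23 b23 (by norm_num) (by norm_num) (by norm_num)
theorem i25 : Inv 1600 173114 := Inv_step i24 b24 (by norm_num) (by norm_num) (by norm_num)
theorem i26 : Inv 1664 179521 := Inv_step i25 b25 (by norm_num) (by norm_num) (by norm_num)
theorem i27 : Inv 1728 185913 := Inv_step i26 b26 (by norm_num) (by norm_num) (by norm_num)
theorem i28 : Inv 1792 192306 := Inv_step i27 b27 (by norm_num) (by norm_num) (by norm_num)
theorem i29 : Inv 1856 198673 := Inv_step i28 b28 (by norm_num) (by norm_num) (by norm_num)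
theorem i30 : Inv 1920 205050 := Inv_step i29 b29 (by norm_num) (by norm_num) (by norm_num)
theorem i31 : Inv 1984 211345 := Inv_step i30 b30 (by norm_num) (by norm_num) (by norm_num)
theorem i32 : Inv 2048 217676 := Inv_step i31 b31 (by norm_num) (by norm_num) (by norm_num)
theorem i33 : Inv 2112 223943 := Inv_step i32 b32 (by norm_num) (by norm_num) (by norm_num)
theorem i34 : Inv 2176 230278 := Inv_step i33 b33 (by norm_num) (by norm_num) (by norm_num)
theorem i35 : Inv 2240 236585 := Inv_step i34 b34 (by norm_num) (by norm_num) (by norm_num)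
theorem i36 : Inv 2304 242824 := Inv_step i35 b35 (by norm_num) (by norm_num) (by norm_num)
theorem i37 : Inv 2368 249053 := Inv_step i36 b36 (by norm_num) (by norm_num) (by norm_num)
theorem i38 : Inv 2432 255231 := Inv_step i37 b37 (by norm_num) (by norm_num) (by norm_num)
theorem i39 : Inv 2496 261488 := Inv_step i38 b38 (by norm_num) (by norm_num) (by norm_num)
theorem i40 : Inv 2560 267738 := Inv_step i39 b39 (by norm_num) (by norm_num) (by norm_num)
theorem i41 : Inv 2624 273966 := Inv_step i40 b40 (by norm_num) (by norm_num) (by norm_num)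
theorem i42 : Inv 2688 280177 := Inv_step i41 b41 (by norm_num) (by norm_num) (by norm_num)
theorem i43 : Inv 2752 286368 := Inv_step i42 b42 (by norm_num) (by norm_num) (by norm_num)
theorem i44 : Inv 2816 292503 := Inv_step i43 b43 (by norm_num) (by norm_num) (by norm_num)
theorem i45 : Inv 2880 298707 := Inv_step i44 b44 (by norm_num) (by norm_num) (by norm_num)
theorem i46 : Inv 2944 304832 := Inv_step i45 b45 (by norm_num) (by norm_num) (by norm_num)
theorem i47 : Inv 3008 310977 := Inv_step i46 b46 (by norm_num) (by norm_num) (by norm_num)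
theorem i48 : Inv 3072 317169 := Inv_step i47 b47 (by norm_num) (by norm_num) (by norm_num)
theorem i49 : Inv 3136 323313 := Inv_step i48 b48 (by norm_num) (by norm_num) (by norm_num)
theorem i50 : Inv 3200 329428 := Inv_step i49 b49 (by norm_num) (by norm_num) (by norm_num)
theorem i51 : Inv 3264 335528 := Inv_step i50 b50 (by norm_num) (by norm_num) (by norm_num)
theorem i52 : Inv 3328 341686 := Inv_step i51 b51 (by norm_num) (by norm_num) (by norm_num)
theorem i53 : Inv 3392 347846 := Inv_step i52 b52 (by norm_num) (by norm_num) (by norm_num)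
theorem i54 : Inv 3456 353920 := Inv_step i53 b53 (by norm_num) (by norm_num) (by norm_num)
theorem i55 : Inv 3520 359988 := Inv_step i54 b54 (by norm_num) (by norm_num) (by norm_num)
theorem i56 : Inv 3584 366112 := Inv_step i55 b55 (by norm_num) (by norm_num) (by norm_num)
theorem i57 : Inv 3648 372170 := Inv_step i56 b56 (by norm_num) (by norm_num) (by norm_num)
theorem i58 : Inv 3712 378256 := Inv_step i57 b57 (by norm_num) (by norm_num) (by norm_num)
theorem i59 : Inv 3776 384269 := Inv_step i58 b58 (by norm_num) (by norm_num) (by norm_num)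
theorem i60 : Inv 3840 390293 := Inv_step i59 b59 (by norm_num) (by norm_num) (by norm_num)
theorem i61 : Inv 3904 396359 := Inv_step i60 b60 (by norm_num) (by norm_num) (by norm_num)
theorem i62 : Inv 3968 402352 := Inv_step i61 b61 (by norm_num) (by norm_num) (by norm_num)
theorem i63 : Inv 4032 408461 := Inv_step i62 b62 (by norm_num) (by norm_num) (by norm_num)
theorem i64 : Inv 4096 414493 := Inv_step i63 b63 (by norm_num) (by norm_num) (by norm_num)
theorem i65 : Inv 4160 420497 := Inv_step i64 b64 (by norm_num) (by norm_num) (by norm_num)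
theorem i66 : Inv 4224 426506 := Inv_step i65 b65 (by norm_num) (by norm_num) (by norm_num)
theorem i67 : Inv 4288 432578 := Inv_step i66 b66 (by norm_num) (by norm_num) (by norm_num)
theorem i68 : Inv 4352 438515 := Inv_step i67 b67 (by norm_num) (by norm_num) (by norm_num)
theorem i69 : Inv 4416 444492 := Inv_step i68 b68 (by norm_num) (by norm_num) (by norm_num)
theorem i70 : Inv 4480 450533 := Inv_step i69 b69 (by norm_num) (by norm_num) (by norm_num)
theorem i71 : Inv 4544 456491 := Inv_step i70 b70 (by norm_num) (by norm_num) (by norm_num)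
theorem i72 : Inv 4608 462516 := Inv_step i71 b71 (by norm_num) (by norm_num) (by norm_num)
theorem i73 : Inv 4672 468521 := Inv_step i72 b72 (by norm_num) (by norm_num) (by norm_num)
theorem i74 : Inv 4736 474543 := Inv_step i73 b73 (by norm_num) (by norm_num) (by norm_num)
theorem i75 : Inv 4800 480542 := Inv_step i74 b74 (by norm_num) (by norm_num) (by norm_num)
theorem i76 : Inv 4864 486477 := Inv_step i75 b75 (by norm_num) (by norm_num) (by norm_num)
theorem i77 : Inv 4928 492429 := Inv_step i76 b76 (by norm_num) (by norm_num) (by norm_num)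
theorem i78 : Inv 4992 498381 := Inv_step i77 b77 (by norm_num) (by norm_num) (by norm_num)
theorem i79 : Inv 5056 504324 := Inv_step i78 b78 (by norm_num) (by norm_num) (by norm_num)
theorem i80 : Inv 5120 510232 := Inv_step i79 b79 (by norm_num) (by norm_num) (by norm_num)
theorem i81 : Inv 5184 516197 := Inv_step i80 b80 (by norm_num) (by norm_num) (by norm_num)
theorem i82 : Inv 5248 522154 := Inv_step i81 b81 (by norm_num) (by norm_num) (by norm_num)
theorem i83 : Inv 5312 528060 := Inv_step i82 b82 (by norm_num) (by norm_num) (by norm_num)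
theorem i84 : Inv 5376 534004 := Inv_step i83 b83 (by norm_num) (by norm_num) (by norm_num)
theorem i85 : Inv 5440 539921 := Inv_step i84 b84 (by norm_num) (by norm_num) (by norm_num)
theorem i86 : Inv 5504 545810 := Inv_step i85 b85 (by norm_num) (by norm_num) (by norm_num)
theorem i87 : Inv 5568 551731 := Inv_step i86 b86 (by norm_num) (by norm_num) (by norm_num)
theorem i88 : Inv 5632 557660 := Inv_step i87 b87 (by norm_num) (by norm_num) (by norm_num)
theorem i89 : Inv 5696 563552 := Inv_step i88 b88 (by norm_num) (by norm_num) (by norm_num)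
theorem i90 : Inv 5760 569400 := Inv_step i89 b89 (by norm_num) (by norm_num) (by norm_num)
theorem i91 : Inv 5824 575346 := Inv_step i90 b90 (by norm_num) (by norm_num) (by norm_num)
theorem i92 : Inv 5888 581303 := Inv_step i91 b91 (by norm_num) (by norm_num) (by norm_num)
theorem i93 : Inv 5952 587184 := Inv_step i92 b92 (by norm_num) (by norm_num) (by norm_num)
theorem i94 : Inv 6016 593086 := Inv_step i93 b93 (by norm_num) (by norm_num) (by norm_num)
theorem i95 : Inv 6080 598964 := Inv_step i94 b94 (by norm_num) (by norm_num) (by norm_num)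
theorem i96 : Inv 6144 604791 := Inv_step i95 b95 (by norm_num) (by norm_num) (by norm_num)
theorem i97 : Inv 6151 605449 := Inv_step i96 b96 (by norm_num) (by norm_num) (by norm_num)

theorem pi_eq (x : ℕ) (h1 : 3011 ≤ x) (h2 : x < 3012 ^ 2) : Nat.primeCounting x = 431 + U ps 1 x := by
  have h := pi_of_U ps 3011 ps_prime ps_nodup ps_complete ps_le x h1 h2 (by omega)
  have h3 : ps.length = 432 := by decide +kernel
  omega

theorem pi_mul_ne (k : ℕ) (h1 : 3 ≤ k) (h2 : k ≤ 6150) (j : ℕ) :
    Nat.primeCounting (1471 * k) ≠ j * (j + 1) / 2 := by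
  rw [pi_eq _ (by omega) (by
    have : 1471 * k ≤ 1471 * 6150 := Nat.mul_le_mul_left _ h2
    norm_num at this ⊢; omega)]
  exact i97.1 k (by omega) (by omega) j

theorem chk12300 : pc 769 (unf 1 12300 ps / 2 ^ 0 % 2 ^ 12300) = 1039 := by decide +kernel

theorem pi_12300 : Nat.primeCounting 12300 = 1470 := by
  rw [pi_eq _ (by norm_num) (by norm_num)]
  have h := pc_chunk 1 12300 ps ps_pos 769 12300 0 (by norm_num) (by norm_num) (by norm_num)
  rw [chk12300, add_zero] at h
  omega

theorem nth_1470 : Nat.nth Nat.Prime 1470 = 12301 := by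
  have h1 : Nat.count Nat.Prime 12301 = 1470 := by
    have := pi_12300
    rwa [Nat.primeCounting, Nat.primeCounting'] at this
  have h2 : Nat.Prime 12301 := by norm_num
  have h3 := Nat.nth_count h2
  rwa [h1] at h3

/-- the primes up to `59` -/
def qs : List ℕ := [2, 3, 5, 7, 11, 13, 17, 19, 23, 29, 31, 37, 41, 43, 47, 53, 59]

theorem qs_prime : ∀ p ∈ qs, p.Prime := by
  unfold qs
  simp only [List.forall_mem_cons]
  norm_num

theorem qs_pos : ∀ p ∈ qs, 0 < p := fun p hp => (qs_prime p hp).pos

theorem qs_chk : chkList qs [2, 3, 5, 7] 59 = true := by decide +kernel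

theorem pi_small (x : ℕ) (h1 : 59 ≤ x) (h2 : x < 60 ^ 2) : Nat.primeCounting x = 16 + U qs 1 x := by
  have h := pi_of_U qs 59 qs_prime (by decide +kernel) (chkList_spec qs _ 59 qs_chk)
    (by decide +kernel) x h1 h2 (by omega)
  have h3 : qs.length = 17 := by decide +kernel
  omega

theorem chk1471 : pc 92 (unf 1 1471 qs / 2 ^ 0 % 2 ^ 1471) = 217 := by decide +kernel
theorem chk2942 : pc 184 (unf 1 2942 qs / 2 ^ 0 % 2 ^ 2942) = 408 := by decide +kernel

theorem pi_1471 : Nat.primeCounting 1471 = 233 := by
  rw [pi_small _ (by norm_num) (by norm_num)]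
  have h := pc_chunk 1 1471 qs qs_pos 92 1471 0 (by norm_num) (by norm_num) (by norm_num)
  rw [chk1471, add_zero] at h
  omega

theorem pi_2942 : Nat.primeCounting 2942 = 424 := by
  rw [pi_small _ (by norm_num) (by norm_num)]
  have h := pc_chunk 1 2942 qs qs_pos 184 2942 0 (by norm_num) (by norm_num) (by norm_num)
  rw [chk2942, add_zero] at h
  omega

theorem main (k : ℕ) (h1 : 1 ≤ k) (h2 : k ≤ 6150) (j : ℕ) :
    Nat.primeCounting (k * 1471) ≠ j * (j + 1) / 2 := by
  rw [mul_comm]
  rcases Nat.lt_or_ge k 3 with h3 | h3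
  · have h4 : k = 1 ∨ k = 2 := by omega
    rcases h4 with rfl | rfl
    · rw [mul_one, pi_1471]
      exact not_tri (t := 21) (by norm_num) (by norm_num) j
    · rw [show 1471 * 2 = 2942 by norm_num, pi_2942]
      exact not_tri (t := 28) (by norm_num) (by norm_num) j
  · exact pi_mul_ne k h3 h2 j

end Pool.Agent.Q258.KTri
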