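import Pool.Agent.Q258.LegDetDefs

set_option autoImplicit false

/-! Determinants with entries `(j² - k²)^m ((j² - k²)/p)`: the factorization. -/

namespace Pool.Agent.Q258.LegDet

open Finset Matrix

/-- the coefficient `c_r` -/
def cz (n N r : ℕ) : ℤ :=
  ∑ i ∈ (range (N + 1)).filter (fun i => i % n = r), (-1) ^ (N - i) * (N.choose i : ℤ)

/-- expansion of a power of a difference of two `n`-th roots of unity -/
theorem expand {F : Type} [Field F] (n N : ℕ) (hn : 0 < n) (x y : F) (hx : x ^ n = 1)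
    (hy : y ^ n = 1) :
    (x - y) ^ N = ∑ r : Fin n, x ^ (r : ℕ) * ((cz n N r : ℤ) : F) * (y⁻¹ ^ (r : ℕ) * y ^ N) := by
  have hy0 : y ≠ 0 := by
    rintro rfl
    rw [zero_pow hn.ne'] at hy
    exact zero_ne_one hy
  have hxmod : ∀ i, x ^ i = x ^ (i % n) := fun i => by
    conv_lhs => rw [← Nat.div_add_mod i n, pow_add, pow_mul, hx, one_pow, one_mul]
  have hyi : y⁻¹ ^ n = 1 := by rw [inv_pow, hy, inv_one]
  have hymod : ∀ i, y⁻¹ ^ i = y⁻¹ ^ (i % n) := fun i => by
    conv_lhs => rw [← Nat.div_add_mod i n, pow_add, pow_mul, hyi, one_pow, one_mul]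
  rw [sub_eq_add_neg, add_pow]
  have h1 : ∀ i ∈ range (N + 1), x ^ i * (-y) ^ (N - i) * (N.choose i : F) =
      x ^ (i % n) * ((-1) ^ (N - i) * (N.choose i : F)) * (y⁻¹ ^ (i % n) * y ^ N) := by
    intro i hi
    rw [mem_range] at hi
    have h2 : y ^ (N - i) = y⁻¹ ^ i * y ^ N := by
      rw [inv_pow, pow_sub₀ y hy0 (by omega), mul_comm]
    rw [neg_pow, h2, ← hymod, ← hxmod]
    ring
  rw [sum_congr rfl h1]
  have h3 : ∀ r : Fin n, x ^ (r : ℕ) * ((cz n N r : ℤ) : F) * (y⁻¹ ^ (r : ℕ) * y ^ N) =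
      ∑ i ∈ (range (N + 1)).filter (fun i => i % n = r),
        x ^ (i % n) * ((-1) ^ (N - i) * (N.choose i : F)) * (y⁻¹ ^ (i % n) * y ^ N) := by
    intro r
    unfold cz
    push_cast
    rw [mul_sum, sum_mul]
    apply sum_congr rfl
    intro i hi
    rw [mem_filter] at hi
    rw [hi.2]
  rw [sum_congr rfl (fun r _ => h3 r)]
  rw [← sum_fiberwise_of_maps_to (s := range (N + 1)) (t := range n) (g := fun i => i % n)
    (fun i _ => mem_range.2 (Nat.mod_lt i hn))]
  rw [← Fin.sum_univ_eq_sum_range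
    (fun r => ∑ i ∈ (range (N + 1)).filter (fun i => i % n = r),
        x ^ (i % n) * ((-1) ^ (N - i) * (N.choose i : F)) * (y⁻¹ ^ (i % n) * y ^ N)) n]

/-- the determinant criterion over a field -/
theorem det_pow_ne_zero_iff {F : Type} [Field F] (n N : ℕ) (hn : 0 < n) (x : Fin n → F)
    (hx : ∀ j, x j ^ n = 1) (hinj : Function.Injective x) :
    Matrix.det (Matrix.of fun j k : Fin n => (x j - x k) ^ N) ≠ 0 ↔
      ∀ r : Fin n, ((cz n N r : ℤ) : F) ≠ 0 := by
  have hx0 : ∀ j, x j ≠ 0 := by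
    intro j h
    have := hx j
    rw [h, zero_pow hn.ne'] at this
    exact zero_ne_one this
  have hA : (Matrix.of fun j k : Fin n => (x j - x k) ^ N) =
      Matrix.vandermonde x * Matrix.diagonal (fun r : Fin n => ((cz n N r : ℤ) : F)) *
        (Matrix.vandermonde (fun k => (x k)⁻¹))ᵀ * Matrix.diagonal (fun k => x k ^ N) := by
    ext j k
    rw [Matrix.mul_diagonal, Matrix.mul_apply, Matrix.of_apply,
      expand n N hn (x j) (x k) (hx j) (hx k), sum_mul]
    apply sum_congr rfl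
    intro r _
    rw [Matrix.mul_diagonal, Matrix.transpose_apply, Matrix.vandermonde_apply,
      Matrix.vandermonde_apply]
    ring
  have hinj' : Function.Injective (fun k => (x k)⁻¹) := fun a b h => hinj (inv_injective h)
  rw [hA, Matrix.det_mul, Matrix.det_mul, Matrix.det_mul, Matrix.det_transpose,
    Matrix.det_diagonal, Matrix.det_diagonal]
  have h1 : Matrix.det (Matrix.vandermonde x) ≠ 0 := Matrix.det_vandermonde_ne_zero_iff.2 hinj
  have h2 : Matrix.det (Matrix.vandermonde (fun k => (x k)⁻¹)) ≠ 0 :=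
    Matrix.det_vandermonde_ne_zero_iff.2 hinj'
  have h3 : ∏ k, x k ^ N ≠ 0 := prod_ne_zero_iff.2 fun k _ => pow_ne_zero _ (hx0 k)
  constructor
  · intro h r hr
    apply h
    rw [prod_eq_zero (mem_univ r) hr]
    ring
  · intro h
    exact mul_ne_zero (mul_ne_zero (mul_ne_zero h1 (prod_ne_zero_iff.2 fun r _ => h r)) h2) h3

/-- the criterion for `p ∣ D p m` -/
theorem dvd_D_iff (p m : ℕ) [hp : Fact p.Prime] (h2 : p ≠ 2) :
    (p : ℤ) ∣ D p m ↔ ∃ r : ℕ, r < (p - 1) / 2 ∧ (p : ℤ) ∣ cz ((p - 1) / 2) (m + (p - 1) / 2) r := by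
  have hodd : p % 2 = 1 := hp.out.eq_two_or_odd.resolve_left h2
  have hp3 : 3 ≤ p := by
    have := hp.out.two_le
    omega
  set n := (p - 1) / 2 with hn
  have hn0 : 0 < n := by omega
  have hpn : p = 2 * n + 1 := by omega
  have hp2 : p / 2 = n := by omega
  have hcast : ((D p m : ℤ) : ZMod p) =
      Matrix.det (Matrix.of fun j k : Fin n =>
        (((((j : ℕ) : ZMod p) + 1) ^ 2) - ((((k : ℕ) : ZMod p) + 1) ^ 2)) ^ (m + n)) := by
    unfold D
    rw [Int.cast_det]
    congr 1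
    ext j k
    rw [Matrix.map_apply, Matrix.of_apply, Matrix.of_apply]
    push_cast
    rw [legendreSym.eq_pow, hp2, pow_add]
    push_cast
    ring
  have hlt : ∀ j : Fin n, ((j : ℕ) + 1) < p := fun j => by
    have := j.2
    omega
  have hne : ∀ a : ℕ, 0 < a → a < p → (a : ZMod p) ≠ 0 := by
    intro a ha hap h
    rw [ZMod.natCast_eq_zero_iff] at h
    exact absurd (Nat.le_of_dvd ha h) (by omega)
  have hx : ∀ j : Fin n, ((((j : ℕ) : ZMod p) + 1) ^ 2) ^ n = 1 := by
    intro j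
    rw [← pow_mul, show 2 * n = p - 1 by omega]
    apply ZMod.pow_card_sub_one_eq_one
    have := hne ((j : ℕ) + 1) (by omega) (hlt j)
    push_cast at this
    exact this
  have hinj : Function.Injective (fun j : Fin n => ((((j : ℕ) : ZMod p) + 1) ^ 2)) := by
    intro j k h
    have hj := j.2
    have hk := k.2
    rcases sq_eq_sq_iff_eq_or_eq_neg.1 h with h1 | h1
    · have h3 : (((j : ℕ) + 1 : ℕ) : ZMod p) = (((k : ℕ) + 1 : ℕ) : ZMod p) := by
        push_cast; exact h1
      rw [ZMod.natCast_eq_natCast_iff'] at h3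
      rw [Nat.mod_eq_of_lt (by omega), Nat.mod_eq_of_lt (by omega)] at h3
      ext
      omega
    · exfalso
      have h3 : (((j : ℕ) + 1 + ((k : ℕ) + 1) : ℕ) : ZMod p) = 0 := by
        push_cast
        rw [h1]
        ring
      exact hne _ (by omega) (by omega) h3
  have hcrit := det_pow_ne_zero_iff n (m + n) hn0 _ hx hinj
  rw [← hcast] at hcrit
  have hz : ∀ z : ℤ, (z : ZMod p) = 0 ↔ (p : ℤ) ∣ z := fun z => ZMod.intCast_zmod_eq_zero_iff_dvd z p
  constructor
  · intro h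
    have h1 : ((D p m : ℤ) : ZMod p) = 0 := (hz _).2 h
    by_contra hcon
    push Not at hcon
    apply hcrit.2 _ h1
    intro r hr
    exact hcon r r.2 ((hz _).1 hr)
  · rintro ⟨r, hr, hdvd⟩
    rw [← hz]
    by_contra hcon
    exact hcrit.1 hcon ⟨r, hr⟩ ((hz _).2 hdvd)

end Pool.Agent.Q258.LegDet
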