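import Pool.Agent.Q258.LegDet

set_option autoImplicit false

/-! The primes dividing `D p m`: large primes are prime factors of explicit positive integers. -/

namespace Pool.Agent.Q258.LegDet

open Finset

/-- `P m r = (2m-1)(2m-3)⋯(2m-2r+1)` -/
def P (m r : ℕ) : ℕ := ∏ i ∈ range r, (2 * m - 1 - 2 * i)

/-- the positive integer whose prime factors matter -/
def T (m r : ℕ) : ℕ :=
  2 ^ (m - r) * (m - r).factorial * P m r + 2 ^ r * r.factorial * P m (m - r)

theorem P_pos {m r : ℕ} (h : r ≤ m) : 0 < P m r := by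
  unfold P
  apply prod_pos
  intro i hi
  rw [mem_range] at hi
  omega

theorem T_pos {m r : ℕ} (h : r ≤ m) : 0 < T m r := by
  unfold T
  have h1 := P_pos h
  have := Nat.factorial_pos (m - r)
  positivity

/-- modulo `p`, with `n = (p-1)/2` -/
theorem choose_mod (p n m r : ℕ) (hpn : p = 2 * n + 1) (hr : r ≤ m) :
    ((2 ^ r * r.factorial * (m + n).choose r : ℕ) : ZMod p) = (P m r : ZMod p) := by
  have h1 : r.factorial * (m + n).choose r = (m + n).descFactorial r :=
    (Nat.descFactorial_eq_factorial_mul_choose (m + n) r).symm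
  have h2 : 2 ^ r * r.factorial * (m + n).choose r = ∏ i ∈ range r, (2 * (m + n - i)) := by
    rw [mul_assoc, h1, Nat.descFactorial_eq_prod_range, prod_mul_distrib, prod_const, card_range]
  rw [h2]
  unfold P
  push_cast
  apply prod_congr rfl
  intro i hi
  rw [mem_range] at hi
  have hp0 : ((p : ℕ) : ZMod p) = 0 := ZMod.natCast_self p
  have h3 : 2 * (m + n - i) = (2 * m - 1 - 2 * i) + p := by omega
  have h4 : ((2 * (m + n - i) : ℕ) : ZMod p) = (((2 * m - 1 - 2 * i) + p : ℕ) : ZMod p) := by
    rw [h3]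
  push_cast at h4
  rw [h4]
  rw [hp0, add_zero]

theorem filter_large (n m r : ℕ) (hr : r < n) (hmr : m < r) :
    (range (m + n + 1)).filter (fun i => i % n = r) = {r} := by
  ext i
  rw [mem_filter, mem_range, mem_singleton]
  constructor
  · rintro ⟨h1, h2⟩
    have h3 := Nat.div_add_mod i n
    rw [h2] at h3
    have h4 : i / n = 0 := by
      by_contra h5
      have h6 : n * 1 ≤ n * (i / n) := Nat.mul_le_mul_left n (Nat.pos_of_ne_zero h5)
      omega
    rw [h4] at h3
    omega
  · rintro rfl
    exact ⟨by omega, Nat.mod_eq_of_lt hr⟩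

theorem filter_small (n m r : ℕ) (hmn : m < n) (hrm : r ≤ m) :
    (range (m + n + 1)).filter (fun i => i % n = r) = {r, r + n} := by
  ext i
  rw [mem_filter, mem_range, mem_insert, mem_singleton]
  constructor
  · rintro ⟨h1, h2⟩
    have h3 := Nat.div_add_mod i n
    rw [h2] at h3
    rcases Nat.lt_or_ge (i / n) 2 with h5 | h5
    · interval_cases h : i / n
      · left; omega
      · right; omega
    · have h6 : n * 2 ≤ n * (i / n) := Nat.mul_le_mul_left n h5
      omega
  · rintro (rfl | rfl)
    · exact ⟨by omega, Nat.mod_eq_of_lt (by omega)⟩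
    · exact ⟨by omega, by rw [Nat.add_mod_right, Nat.mod_eq_of_lt (by omega)]⟩

/-- The criterion for large primes. -/
theorem dvd_D_iff_large (p m : ℕ) [hp : Fact p.Prime] (h4 : p % 4 = 1) (hm : 2 * m + 1 < p) :
    (p : ℤ) ∣ D p m ↔ ∃ r : ℕ, r ≤ m ∧ p ∣ T m r := by
  rw [dvd_D_iff p m (by omega)]
  obtain ⟨n, hpn⟩ : ∃ n, p = 2 * n + 1 := ⟨p / 2, by omega⟩
  have hn : (p - 1) / 2 = n := by omega
  rw [hn]
  have hmn : m < n := by omega
  have heven : Even n := by
    rw [Nat.even_iff]; omega
  -- large `r` do not contribute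
  have hlarge : ∀ r, m < r → r < n → ¬ (p : ℤ) ∣ cz n (m + n) r := by
    intro r h1 h2 h3
    unfold cz at h3
    rw [filter_large n m r h2 h1, sum_singleton] at h3
    have h5 : (p : ℤ) ∣ ((m + n).choose r : ℤ) :=
      (((isUnit_one.neg).pow (m + n - r)).dvd_mul_left).1 h3
    have h6 : p ∣ (m + n).choose r := Int.natCast_dvd_natCast.1 h5
    have h7 : p ∣ (m + n).factorial :=
      h6.trans (by
        rw [← Nat.choose_mul_factorial_mul_factorial (show r ≤ m + n by omega), mul_assoc]
        exact Nat.dvd_mul_right _ _)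
    rw [hp.out.dvd_factorial] at h7
    omega
  -- small `r`
  have hsmall : ∀ r, r ≤ m → ((p : ℤ) ∣ cz n (m + n) r ↔ p ∣ T m r) := by
    intro r hr
    have h1 : cz n (m + n) r =
        (-1) ^ (m + n - r) * (((m + n).choose r : ℤ) + ((m + n).choose (m - r) : ℤ)) := by
      unfold cz
      rw [filter_small n m r hmn hr, sum_pair (by omega)]
      have h2 : m + n - r = (m + n - (r + n)) + n := by omega
      have h3 : (m + n).choose (r + n) = (m + n).choose (m - r) := by
        rw [← Nat.choose_symm (show m - r ≤ m + n by omega)]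
        congr 1
        omega
      have h4 : ((-1 : ℤ)) ^ (m + n - r) = (-1) ^ (m + n - (r + n)) := by
        rw [h2, pow_add, heven.neg_one_pow, mul_one]
      rw [h3, h4]
      ring
    have hu : IsUnit ((-1 : ℤ) ^ (m + n - r)) := (isUnit_one.neg).pow _
    rw [h1, hu.dvd_mul_left]
    have h5 : (((m + n).choose r : ℤ) + ((m + n).choose (m - r) : ℤ)) =
        (((m + n).choose r + (m + n).choose (m - r) : ℕ) : ℤ) := by push_cast; ring
    rw [h5, Int.natCast_dvd_natCast]
    -- multiply by the unit `2 ^ m r! (m-r)!`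
    set u := 2 ^ m * r.factorial * (m - r).factorial with hu'
    have hcop : Nat.Coprime p u := by
      rw [hu']
      apply Nat.Coprime.mul_right
      · apply Nat.Coprime.mul_right
        · apply Nat.Coprime.pow_right
          rw [Nat.coprime_primes hp.out Nat.prime_two]
          omega
        · exact (Nat.Prime.coprime_iff_not_dvd hp.out).2 (by rw [hp.out.dvd_factorial]; omega)
      · exact (Nat.Prime.coprime_iff_not_dvd hp.out).2 (by rw [hp.out.dvd_factorial]; omega)
    have h6 : p ∣ (m + n).choose r + (m + n).choose (m - r) ↔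
        p ∣ u * ((m + n).choose r + (m + n).choose (m - r)) :=
      ⟨fun h => Dvd.dvd.mul_left h _, fun h => hcop.dvd_of_dvd_mul_left h⟩
    rw [h6, ← ZMod.natCast_eq_zero_iff, ← ZMod.natCast_eq_zero_iff]
    have h7 := choose_mod p n m r hpn hr
    have h8 := choose_mod p n m (m - r) hpn (Nat.sub_le m r)
    have hpow : (2 : ℕ) ^ m = 2 ^ (m - r) * 2 ^ r := by
      rw [← pow_add]; congr 1; omega
    have h9 : ((u * ((m + n).choose r + (m + n).choose (m - r)) : ℕ) : ZMod p) =
        ((T m r : ℕ) : ZMod p) := by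
      unfold T
      rw [hu', hpow]
      push_cast at h7 h8 ⊢
      linear_combination (2 : ZMod p) ^ (m - r) * ((m - r).factorial : ZMod p) * h7 +
        (2 : ZMod p) ^ r * (r.factorial : ZMod p) * h8
    rw [h9]
  constructor
  · rintro ⟨r, hr, hd⟩
    rcases Nat.lt_or_ge m r with h | h
    · exact absurd hd (hlarge r h hr)
    · exact ⟨r, h, (hsmall r h).1 hd⟩
  · rintro ⟨r, hr, hd⟩
    exact ⟨r, by omega, (hsmall r hr).2 hd⟩

/-- finiteness -/
theorem E_finite (m : ℕ) : (E m).Finite := by
  have hT : (∏ r ∈ range (m + 1), T m r) ≠ 0 :=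
    prod_ne_zero_iff.2 fun r hr => (T_pos (by rw [mem_range] at hr; omega)).ne'
  apply (((Finset.range (2 * m + 2)) ∪ (∏ r ∈ range (m + 1), T m r).primeFactors).finite_toSet).subset
  rintro p ⟨hp, h4, hd⟩
  rw [mem_coe, mem_union, mem_range, Nat.mem_primeFactors]
  rcases Nat.lt_or_ge p (2 * m + 2) with h | h
  · left; exact h
  · right
    obtain ⟨r, hr, hpr⟩ := (dvd_D_iff_large p m h4 (by omega)).1 hd
    exact ⟨hp.out, hpr.trans (Finset.dvd_prod_of_mem _ (mem_range.2 (by omega))), hT⟩

end Pool.Agent.Q258.LegDet
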