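import Pool.Agent.Q258.LegDet2

set_option autoImplicit false

/-! The sets `E 5`, `E 7`, `E 9`, `E 11`. -/

namespace Pool.Agent.Q258.LegDet

open Finset

theorem mem_E_iff (m p : ℕ) : p ∈ E m ↔ p.Prime ∧ p % 4 = 1 ∧
    ∃ r : ℕ, r < (p - 1) / 2 ∧ (p : ℤ) ∣ cz ((p - 1) / 2) (m + (p - 1) / 2) r := by
  constructor
  · rintro ⟨hp, h4, hd⟩
    exact ⟨hp.out, h4, (dvd_D_iff p m (by omega)).1 hd⟩
  · rintro ⟨hp, h4, hd⟩
    have : Fact p.Prime := ⟨hp⟩
    exact ⟨⟨hp⟩, h4, (dvd_D_iff p m (by omega)).2 hd⟩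

theorem mem_E_large (m p : ℕ) (hm : 2 * m + 1 < p) : p ∈ E m ↔ p.Prime ∧ p % 4 = 1 ∧
    ∃ r : ℕ, r ≤ m ∧ p ∣ T m r := by
  constructor
  · rintro ⟨hp, h4, hd⟩
    exact ⟨hp.out, h4, (dvd_D_iff_large p m h4 hm).1 hd⟩
  · rintro ⟨hp, h4, hd⟩
    have : Fact p.Prime := ⟨hp⟩
    exact ⟨⟨hp⟩, h4, (dvd_D_iff_large p m h4 hm).2 hd⟩

/-- a prime dividing a product of a list of primes lies in the list -/
theorem mem_of_dvd_prod {p : ℕ} (hp : p.Prime) (l : List ℕ) (hl : ∀ q ∈ l, q.Prime)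
    (h : p ∣ l.prod) : p ∈ l := by
  obtain ⟨q, hq, hpq⟩ := (Nat.Prime.prime hp).dvd_prod_iff.1 h
  rw [(Nat.prime_dvd_prime_iff_eq hp (hl q hq)).1 hpq]
  exact hq

theorem large_mem (m : ℕ) (l : List ℕ) (hl : ∀ q ∈ l, q.Prime)
    (hT : ∀ r ≤ m, T m r ∣ l.prod ^ 20) {p : ℕ} (hp : p ∈ E m) (hpm : 2 * m + 1 < p) :
    p ∈ l ∧ p % 4 = 1 := by
  obtain ⟨h1, h2, r, hr, hd⟩ := (mem_E_large m p hpm).1 hp
  exact ⟨mem_of_dvd_prod h1 l hl (h1.dvd_of_dvd_pow (hd.trans (hT r hr))), h2⟩

theorem small_cases {p : ℕ} (hp : p.Prime) (h4 : p % 4 = 1) (h : p ≤ 23) :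
    p = 5 ∨ p = 13 ∨ p = 17 := by
  interval_cases p <;> first | omega | (exfalso; revert hp; norm_num)

theorem E5 : E 5 = {29} := by
  ext p
  rw [Set.mem_singleton_iff]
  constructor
  · intro hp
    rcases Nat.lt_or_ge (2 * 5 + 1) p with h | h
    · obtain ⟨h1, h2⟩ := large_mem 5 [2, 3, 5, 7, 11, 29] (by
        intro q hq; fin_cases hq <;> norm_num) (by decide +kernel) hp h
      fin_cases h1 <;> simp_all
    · obtain ⟨h1, h2, r, hr, hd⟩ := (mem_E_iff 5 p).1 hp
      rcases small_cases h1 h2 (by omega) with rfl | rfl | rfl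
      · revert r; decide +kernel
      · omega
      · omega
  · rintro rfl
    exact (mem_E_large 5 29 (by norm_num)).2 ⟨by norm_num, by norm_num, 0, by norm_num,
      by decide +kernel⟩

theorem E7 : E 7 = {13, 53, 2477} := by
  ext p
  simp only [Set.mem_insert_iff, Set.mem_singleton_iff]
  constructor
  · intro hp
    rcases Nat.lt_or_ge (2 * 7 + 1) p with h | h
    · obtain ⟨h1, h2⟩ := large_mem 7 [2, 3, 5, 7, 11, 13, 53, 743, 2477] (by
        intro q hq; fin_cases hq <;> norm_num) (by decide +kernel) hp h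
      fin_cases h1 <;> simp_all
    · obtain ⟨h1, h2, r, hr, hd⟩ := (mem_E_iff 7 p).1 hp
      rcases small_cases h1 h2 (by omega) with rfl | rfl | rfl
      · exfalso; revert r; decide +kernel
      · left; rfl
      · omega
  · rintro (rfl | rfl | rfl)
    · exact (mem_E_iff 7 13).2 ⟨by norm_num, by norm_num, by decide +kernel⟩
    · exact (mem_E_large 7 53 (by norm_num)).2 ⟨by norm_num, by norm_num, 2, by norm_num,
        by decide +kernel⟩
    · exact (mem_E_large 7 2477 (by norm_num)).2 ⟨by norm_num, by norm_num, 0, by norm_num,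
        by decide +kernel⟩

theorem E9 : E 9 = {13, 17, 29, 1201} := by
  ext p
  simp only [Set.mem_insert_iff, Set.mem_singleton_iff]
  constructor
  · intro hp
    rcases Nat.lt_or_ge (2 * 9 + 1) p with h | h
    · obtain ⟨h1, h2⟩ := large_mem 9 [2, 3, 5, 7, 11, 13, 17, 19, 29, 47, 1201] (by
        intro q hq; fin_cases hq <;> norm_num) (by decide +kernel) hp h
      fin_cases h1 <;> simp_all
    · obtain ⟨h1, h2, r, hr, hd⟩ := (mem_E_iff 9 p).1 hp
      rcases small_cases h1 h2 (by omega) with rfl | rfl | rfl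
      · exfalso; revert r; decide +kernel
      · left; rfl
      · right; left; rfl
  · rintro (rfl | rfl | rfl | rfl)
    · exact (mem_E_iff 9 13).2 ⟨by norm_num, by norm_num, by decide +kernel⟩
    · exact (mem_E_iff 9 17).2 ⟨by norm_num, by norm_num, by decide +kernel⟩
    · exact (mem_E_large 9 29 (by norm_num)).2 ⟨by norm_num, by norm_num, 0, by norm_num,
        by decide +kernel⟩
    · exact (mem_E_large 9 1201 (by norm_num)).2 ⟨by norm_num, by norm_num, 1, by norm_num,
        by decide +kernel⟩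

theorem E11 : E 11 = {17, 29, 1597} := by
  ext p
  simp only [Set.mem_insert_iff, Set.mem_singleton_iff]
  constructor
  · intro hp
    rcases Nat.lt_or_ge (2 * 11 + 1) p with h | h
    · obtain ⟨h1, h2⟩ := large_mem 11
        [2, 3, 5, 7, 11, 13, 17, 19, 23, 29, 31, 43, 367, 859, 1597] (by
        intro q hq; fin_cases hq <;> norm_num) (by decide +kernel) hp h
      fin_cases h1 <;> simp_all
    · obtain ⟨h1, h2, r, hr, hd⟩ := (mem_E_iff 11 p).1 hp
      rcases small_cases h1 h2 (by omega) with rfl | rfl | rfl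
      · exfalso; revert r; decide +kernel
      · exfalso; revert r; decide +kernel
      · left; rfl
  · rintro (rfl | rfl | rfl)
    · exact (mem_E_iff 11 17).2 ⟨by norm_num, by norm_num, by decide +kernel⟩
    · exact (mem_E_large 11 29 (by norm_num)).2 ⟨by norm_num, by norm_num, 3, by norm_num,
        by decide +kernel⟩
    · exact (mem_E_large 11 1597 (by norm_num)).2 ⟨by norm_num, by norm_num, 2, by norm_num,
        by decide +kernel⟩

end Pool.Agent.Q258.LegDet
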