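import Mathlib

set_option autoImplicit false

/-! Determinants with entries `(j² - k²)^m ((j² - k²)/p)`: definitions. -/

namespace Pool.Agent.Q258.LegDet

/-- `D p m` is the determinant of the matrix with entries `(j² - k²)^m ((j² - k²)/p)`,
`1 ≤ j, k ≤ (p - 1) / 2` -/
def D (p m : ℕ) [Fact p.Prime] : ℤ :=
  Matrix.det (Matrix.of fun j k : Fin ((p - 1) / 2) =>
    ((((j : ℕ) : ℤ) + 1) ^ 2 - (((k : ℕ) : ℤ) + 1) ^ 2) ^ m *
      legendreSym p ((((j : ℕ) : ℤ) + 1) ^ 2 - (((k : ℕ) : ℤ) + 1) ^ 2))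

/-- `E m` is the set of primes `p ≡ 1 (mod 4)` which divide `D p m` -/
def E (m : ℕ) : Set ℕ := {p | ∃ _ : Fact p.Prime, p % 4 = 1 ∧ (p : ℤ) ∣ D p m}

end Pool.Agent.Q258.LegDet
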